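import Pool.Agent.Lib.Pb52861c.Chart

/-!
# Bundles of affine spaces
-/

set_option autoImplicit false

open AlgebraicGeometry CategoryTheory Limits MvPolynomial

namespace Pool.Agent.Lib.Pb52861c

/-- The presentation of a polynomial ring without relations. -/
noncomputable def mvPres (R ι : Type) [CommRing R] [Finite ι] :
    Algebra.SubmersivePresentation R (MvPolynomial ι R) ι Empty where
  __ := Algebra.Generators.mvPolynomial R ι
  relation := Empty.elim
  span_range_relation_eq_ker := by
    rw [Set.range_eq_empty, Ideal.span_empty]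
    symm
    rw [Algebra.Generators.ker_eq_ker_aeval_val, Algebra.Generators.mvPolynomial_val,
      aeval_X_left]
    ext x
    simp
  map := Empty.elim
  map_inj := fun a => a.elim
  jacobian_isUnit := by
    rw [Algebra.PreSubmersivePresentation.jacobian_eq_jacobiMatrix_det]
    have : IsEmpty Empty := inferInstance
    rw [Matrix.det_isEmpty, map_one]
    exact isUnit_one

lemma isStandardSmooth_mvPolynomial (R : Type) [CommRing R] (n : ℕ) :
    Algebra.IsStandardSmoothOfRelativeDimension n R (MvPolynomial (Fin n) R) := by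
  refine (mvPres R (Fin n)).isStandardSmoothOfRelativeDimension ?_
  simp [Algebra.Presentation.dimension]

lemma isStandardSmooth_mvPolynomial' (R σ : Type) [CommRing R] [Finite σ] :
    Algebra.IsStandardSmoothOfRelativeDimension (Nat.card σ) R (MvPolynomial σ R) := by
  refine (mvPres R σ).isStandardSmoothOfRelativeDimension ?_
  simp [Algebra.Presentation.dimension]

/-- Spectra of polynomial rings are smooth. -/
lemma smooth_Spec_C (R σ : Type) [CommRing R] [Finite σ] :
    SmoothOfRelativeDimension (Nat.card σ)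
      (Spec.map (CommRingCat.ofHom (C : R →+* MvPolynomial σ R))) := by
  rw [HasRingHomProperty.Spec_iff (P := @SmoothOfRelativeDimension (Nat.card σ))]
  apply RingHom.locally_of
  · exact RingHom.isStandardSmoothOfRelativeDimension_respectsIso
  · have := isStandardSmooth_mvPolynomial' R σ
    exact (RingHom.isStandardSmoothOfRelativeDimension_algebraMap _).mpr this

/-- Affine space is smooth over the base. -/
lemma smooth_affineSpace (r : ℕ) (V : Scheme.{0}) :
    SmoothOfRelativeDimension r (𝔸(Fin r; V) ↘ V) := by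
  have h1 : SmoothOfRelativeDimension r (𝔸(Fin r; Spec (CommRingCat.of ℤ)) ↘ Spec (CommRingCat.of ℤ)) := by
    have h2 : (𝔸(Fin r; Spec (CommRingCat.of ℤ)) ↘ Spec (CommRingCat.of ℤ)) =
        (AffineSpace.SpecIso (Fin r) (CommRingCat.of ℤ)).hom ≫
          Spec.map (CommRingCat.ofHom C) := by
      rw [← AffineSpace.SpecIso_inv_over, Iso.hom_inv_id_assoc]
    rw [h2]
    have h3 : SmoothOfRelativeDimension r
        (Spec.map (CommRingCat.ofHom (C : (CommRingCat.of ℤ) →+* MvPolynomial (Fin r) (CommRingCat.of ℤ)))) := by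
      have := smooth_Spec_C ℤ (Fin r)
      rw [Nat.card_fin] at this
      exact this
    have h4 := smoothOfRelativeDimension_comp 0 r (AffineSpace.SpecIso (Fin r) (CommRingCat.of ℤ)).hom
      (Spec.map (CommRingCat.ofHom (C : (CommRingCat.of ℤ) →+* MvPolynomial (Fin r) (CommRingCat.of ℤ))))
    rwa [zero_add] at h4
  have h5 := AffineSpace.isPullback_map (n := Fin r) (specZIsTerminal.from V)
  exact (smoothOfRelativeDimension_isStableUnderBaseChange r).of_isPullback h5 h1

/-- `f : Y ⟶ X` is a Zariski locally trivial bundle of affine spaces of dimension `r`: every point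
of `X` has an open neighbourhood `V` over which `Y` becomes the projection of `𝔸ʳ` over `V`. -/
def IsAffineBundle (r : ℕ) {X Y : Scheme.{0}} (f : Y ⟶ X) : Prop :=
  ∀ x : X, ∃ (V : Scheme.{0}) (j : V ⟶ X) (g : 𝔸(Fin r; V) ⟶ Y),
    IsOpenImmersion j ∧ x ∈ Set.range j ∧ IsPullback g (𝔸(Fin r; V) ↘ V) f j

instance locTarget (r : ℕ) : IsZariskiLocalAtTarget
    (@SmoothOfRelativeDimension r : MorphismProperty Scheme.{0}) :=
  HasRingHomProperty.instIsZariskiLocalAtTarget (P := @SmoothOfRelativeDimension r)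
    (Q := RingHom.Locally (RingHom.IsStandardSmoothOfRelativeDimension r))

instance locSource (r : ℕ) : IsZariskiLocalAtSource
    (@SmoothOfRelativeDimension r : MorphismProperty Scheme.{0}) :=
  HasRingHomProperty.instIsZariskiLocalAtSource (P := @SmoothOfRelativeDimension r)
    (Q := RingHom.Locally (RingHom.IsStandardSmoothOfRelativeDimension r))

/-- Bundles of affine spaces are smooth. -/
lemma IsAffineBundle.smooth {r : ℕ} {X Y : Scheme.{0}} {f : Y ⟶ X} (hf : IsAffineBundle r f) :
    SmoothOfRelativeDimension r f := by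
  refine IsZariskiLocalAtTarget.of_forall_exists_morphismRestrict
    (P := @SmoothOfRelativeDimension r) fun x => ?_
  obtain ⟨V, j, g, hj, hx, hp⟩ := hf x
  refine ⟨j.opensRange, hx, ?_⟩
  -- compare the restriction with the chart
  have h1 := (isPullback_morphismRestrict f j.opensRange).flip
  have h2 : IsPullback g ((𝔸(Fin r; V) ↘ V) ≫ j.isoOpensRange.hom) f j.opensRange.ι :=
    IsPullback.of_iso hp (Iso.refl _) (Iso.refl _) (j.isoOpensRange) (Iso.refl _)
      (by simp) (by simp) (by simp) (by simp)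
  have h3 : (h1.isoIsPullback _ _ h2).hom ≫ ((𝔸(Fin r; V) ↘ V) ≫ j.isoOpensRange.hom) =
      f ∣_ j.opensRange := IsPullback.isoIsPullback_hom_snd _ _ _ _
  rw [← h3]
  have h4 := smooth_affineSpace r V
  have h5 := smoothOfRelativeDimension_comp r 0 (𝔸(Fin r; V) ↘ V) j.isoOpensRange.hom
  have h6 := smoothOfRelativeDimension_comp 0 (r + 0) (h1.isoIsPullback _ _ h2).hom
    ((𝔸(Fin r; V) ↘ V) ≫ j.isoOpensRange.hom)
  rwa [zero_add, add_zero] at h6

/-- A pullback square over a target stays a pullback square over a monomorphism into the target. -/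
lemma isPullback_of_comp_mono {C : Type*} [Category* C] {P X Y U Z : C} {g : P ⟶ Y} {p : P ⟶ X}
    {f : Y ⟶ U} {j : X ⟶ U} (i : U ⟶ Z) [Mono i] (h : IsPullback g p (f ≫ i) (j ≫ i)) :
    IsPullback g p f j := by
  have hw : g ≫ f = p ≫ j := by
    rw [← cancel_mono i, Category.assoc, Category.assoc, h.w]
  refine ⟨⟨hw⟩, ⟨PullbackCone.IsLimit.mk _ (fun s => h.lift s.fst s.snd ?_) ?_ ?_ ?_⟩⟩
  · rw [← Category.assoc, ← Category.assoc, s.condition]
  · intro s; exact h.lift_fst _ _ _
  · intro s; exact h.lift_snd _ _ _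
  · intro s m h1 h2
    apply h.hom_ext
    · rw [h1, h.lift_fst]
    · rw [h2, h.lift_snd]

section Splittings

variable {F : Type} [Field F] {σ τ : Type} [Fintype τ] [DecidableEq τ]
  (q : τ → MvPolynomial σ F)

/-- The projection from the hypersurface of splittings to the affine space. -/
noncomputable def prB : Spec (CommRingCat.of (BB q)) ⟶ Spec (CommRingCat.of (MvPolynomial σ F)) :=
  Spec.map (CommRingCat.ofHom (toB q))

/-- The chart of the hypersurface over the open set where `q k₀` is invertible. -/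
lemma isPullback_chart (k₀ : τ) {r : ℕ} (e : {l : τ // l ≠ k₀} ≃ Fin r) :
    IsPullback ((AffineSpace.SpecIso (Fin r) (CommRingCat.of (RK q k₀))).hom ≫
        Spec.map (CommRingCat.ofHom (beta q k₀ e)))
      (𝔸(Fin r; Spec (CommRingCat.of (RK q k₀))) ↘ Spec (CommRingCat.of (RK q k₀)))
      (prB q)
      (Spec.map (CommRingCat.ofHom (algebraMap (MvPolynomial σ F) (RK q k₀)))) := by
  have h := isPullback_SpecMap_of_isPushout _ _ _ _ (isPushout_chart q k₀ e)
  refine IsPullback.of_iso h (AffineSpace.SpecIso (Fin r) (CommRingCat.of (RK q k₀))).symm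
    (Iso.refl _) (Iso.refl _) (Iso.refl _) ?_ ?_ ?_ ?_
  · simp
  · rw [Iso.refl_hom, Category.comp_id, Iso.symm_hom, AffineSpace.SpecIso_inv_over]
  · simp [prB]
  · simp

/-- The open set where some `q k` is invertible. -/
def UU : (Spec (CommRingCat.of (MvPolynomial σ F))).Opens :=
  ⟨{x | ∃ k, q k ∉ x.asIdeal}, by
    have : {x : PrimeSpectrum (MvPolynomial σ F) | ∃ k, q k ∉ x.asIdeal} =
        ⋃ k, (PrimeSpectrum.basicOpen (q k) : Set (PrimeSpectrum (MvPolynomial σ F))) := by
      ext x
      simp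
    exact this ▸ isOpen_iUnion fun k => (PrimeSpectrum.basicOpen (q k)).isOpen⟩

omit [Fintype τ] [DecidableEq τ] in
lemma mem_UU (x : Spec (CommRingCat.of (MvPolynomial σ F))) :
    x ∈ UU q ↔ ∃ k, q k ∉ x.asIdeal := Iff.rfl

omit [DecidableEq τ] in
lemma range_prB : Set.range (prB q) ⊆ Set.range (UU q).ι := by
  rintro x ⟨y, rfl⟩
  rw [Scheme.Opens.range_ι]
  change ∃ k, q k ∉ (prB q y).asIdeal
  by_contra hcon
  push Not at hcon
  have h1 : ∀ k, toB q (q k) ∈ y.asIdeal := fun k => hcon k
  apply y.2.ne_top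
  rw [Ideal.eq_top_iff_one, ← sum_yB q]
  exact Ideal.sum_mem _ fun k _ => Ideal.mul_mem_left _ _ (h1 k)

/-- The projection from the hypersurface of splittings to the open set. -/
noncomputable def prU : Spec (CommRingCat.of (BB q)) ⟶ (UU q : Scheme.{0}) :=
  IsOpenImmersion.lift (UU q).ι (prB q) (range_prB q)

omit [DecidableEq τ] in
lemma prU_ι : prU q ≫ (UU q).ι = prB q := IsOpenImmersion.lift_fac _ _ _

/-- The hypersurface of splittings is a bundle of affine spaces over the open set. -/
theorem isAffineBundle_prU : IsAffineBundle (Fintype.card τ - 1) (prU q) := by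
  intro x
  have hx : (UU q).ι x ∈ UU q := x.2
  obtain ⟨k₀, hk₀⟩ := (mem_UU q _).mp hx
  have hcard : Fintype.card {l : τ // l ≠ k₀} = Fintype.card τ - 1 := by
    rw [Fintype.card_subtype_compl, Fintype.card_subtype_eq]
  let e : {l : τ // l ≠ k₀} ≃ Fin (Fintype.card τ - 1) := Fintype.equivFinOfCardEq hcard
  let ι0 : Spec (CommRingCat.of (RK q k₀)) ⟶ Spec (CommRingCat.of (MvPolynomial σ F)) :=
    Spec.map (CommRingCat.ofHom (algebraMap (MvPolynomial σ F) (RK q k₀)))
  have hι0 : IsOpenImmersion ι0 := by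
    dsimp only [ι0]; infer_instance
  have hrange : Set.range ι0 = (PrimeSpectrum.basicOpen (q k₀) : Set (PrimeSpectrum _)) :=
    PrimeSpectrum.localization_away_comap_range (RK q k₀) (q k₀)
  have hsub : Set.range ι0 ⊆ Set.range (UU q).ι := by
    rw [hrange, Scheme.Opens.range_ι]
    intro y hy
    exact ⟨k₀, hy⟩
  let j : Spec (CommRingCat.of (RK q k₀)) ⟶ (UU q : Scheme.{0}) :=
    IsOpenImmersion.lift (UU q).ι ι0 hsub
  have hj : j ≫ (UU q).ι = ι0 := IsOpenImmersion.lift_fac _ _ _
  have hjo : IsOpenImmersion j := by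
    have : IsOpenImmersion (j ≫ (UU q).ι) := by rw [hj]; exact hι0
    exact IsOpenImmersion.of_comp j (UU q).ι
  refine ⟨Spec (CommRingCat.of (RK q k₀)), j,
    (AffineSpace.SpecIso (Fin _) (CommRingCat.of (RK q k₀))).hom ≫
        Spec.map (CommRingCat.ofHom (beta q k₀ e)), hjo, ?_, ?_⟩
  · have h1 : (UU q).ι x ∈ Set.range ι0 := by
      rw [hrange]; exact hk₀
    obtain ⟨v, hv⟩ := h1
    refine ⟨v, ?_⟩
    apply (UU q).ι.isOpenEmbedding.injective
    rw [← hv, ← hj]
    rfl
  · apply isPullback_of_comp_mono (UU q).ι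
    rw [prU_ι, hj]
    exact isPullback_chart q k₀ e

end Splittings

end Pool.Agent.Lib.Pb52861c
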