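import Mathlib

/-!
# The hypersurface of splittings of a unimodular row

For a commutative ring `R` and `q : τ → R`, the ring `R[y] / (∑ q_k y_k - 1)` becomes a polynomial
ring after inverting one of the `q_k`. We work with `R = F[x]` and the presentation in all the
variables `x`, `y`.
-/

set_option autoImplicit false

open MvPolynomial CategoryTheory Limits

namespace Pool.Agent.Lib.Pb52861c

variable {F : Type} [Field F] {σ τ : Type} [Fintype τ] [DecidableEq τ]

/-- The polynomial `∑ y_k q_k(x) - 1`. -/
noncomputable def gpoly (q : τ → MvPolynomial σ F) : MvPolynomial (σ ⊕ τ) F :=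
  ∑ k, X (Sum.inr k) * rename Sum.inl (q k) - 1

/-- The coordinate ring of the hypersurface. -/
abbrev BB (q : τ → MvPolynomial σ F) : Type := MvPolynomial (σ ⊕ τ) F ⧸ Ideal.span {gpoly q}

/-- The projection to the base. -/
noncomputable def toB (q : τ → MvPolynomial σ F) : MvPolynomial σ F →+* BB q :=
  (Ideal.Quotient.mk (Ideal.span {gpoly q})).comp (rename Sum.inl : MvPolynomial σ F →ₐ[F] _).toRingHom

/-- The coordinates in the fibres. -/
noncomputable def yB (q : τ → MvPolynomial σ F) (k : τ) : BB q :=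
  Ideal.Quotient.mk _ (X (Sum.inr k))

omit [DecidableEq τ] in
lemma sum_yB (q : τ → MvPolynomial σ F) : ∑ k, yB q k * toB q (q k) = 1 := by
  have h : Ideal.Quotient.mk (Ideal.span {gpoly q})
      (∑ k, X (Sum.inr k) * rename Sum.inl (q k) - 1) = 0 :=
    Ideal.Quotient.eq_zero_iff_mem.mpr (Ideal.subset_span rfl)
  rw [map_sub, map_one, sub_eq_zero, map_sum] at h
  rw [← h]
  refine Finset.sum_congr rfl fun k _ => ?_
  rw [map_mul]
  rfl

variable (q : τ → MvPolynomial σ F) (k₀ : τ) {r : ℕ} (e : {l : τ // l ≠ k₀} ≃ Fin r)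

/-- The base after inverting `q k₀`. -/
abbrev RK : Type := Localization.Away (q k₀)

/-- The chart. -/
abbrev PK (r : ℕ) : Type := MvPolynomial (Fin r) (RK q k₀)

/-- The inverse of `q k₀`. -/
noncomputable def invq : RK q k₀ := IsLocalization.Away.invSelf (q k₀)

omit [Fintype τ] [DecidableEq τ] in
lemma mul_invq : algebraMap (MvPolynomial σ F) (RK q k₀) (q k₀) * invq q k₀ = 1 :=
  IsLocalization.Away.mul_invSelf (q k₀)

/-- The fibre coordinates in the chart. -/
noncomputable def yP (l : τ) : PK q k₀ r :=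
  if h : l = k₀ then C (invq q k₀) *
    (1 - ∑ l' : {l : τ // l ≠ k₀}, X (e l') * C (algebraMap (MvPolynomial σ F) (RK q k₀) (q l'.1)))
  else X (e ⟨l, h⟩)

lemma sum_yP : ∑ l, yP q k₀ e l * C (algebraMap (MvPolynomial σ F) (RK q k₀) (q l)) = 1 := by
  rw [← Finset.add_sum_erase _ _ (Finset.mem_univ k₀)]
  have h1 : ∑ l ∈ Finset.univ.erase k₀, yP q k₀ e l * C (algebraMap (MvPolynomial σ F) (RK q k₀) (q l)) =
      ∑ l' : {l : τ // l ≠ k₀}, X (e l') * C (algebraMap (MvPolynomial σ F) (RK q k₀) (q l'.1)) := by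
    rw [Finset.sum_subtype (p := fun l => l ≠ k₀) (Finset.univ.erase k₀) (by simp)]
    refine Finset.sum_congr rfl fun l _ => ?_
    rw [yP, dif_neg l.2]
  rw [h1, yP, dif_pos rfl]
  have h2 : (C (invq q k₀) : PK q k₀ r) * C (algebraMap (MvPolynomial σ F) (RK q k₀) (q k₀)) = 1 := by
    rw [← C_mul, mul_comm, mul_invq, C_1]
  calc C (invq q k₀) * (1 - ∑ l' : {l : τ // l ≠ k₀}, X (e l') *
        C (algebraMap (MvPolynomial σ F) (RK q k₀) (q l'.1))) * C (algebraMap (MvPolynomial σ F) (RK q k₀) (q k₀)) +
        ∑ l' : {l : τ // l ≠ k₀}, X (e l') * C (algebraMap (MvPolynomial σ F) (RK q k₀) (q l'.1))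
      = (C (invq q k₀) * C (algebraMap (MvPolynomial σ F) (RK q k₀) (q k₀))) *
        (1 - ∑ l' : {l : τ // l ≠ k₀}, X (e l') * C (algebraMap (MvPolynomial σ F) (RK q k₀) (q l'.1))) +
        ∑ l' : {l : τ // l ≠ k₀}, X (e l') * C (algebraMap (MvPolynomial σ F) (RK q k₀) (q l'.1)) := by ring
    _ = 1 := by rw [h2]; ring

/-- The map of the big polynomial ring to the chart. -/
noncomputable def betaS : MvPolynomial (σ ⊕ τ) F →+* PK q k₀ r :=
  eval₂Hom ((C : RK q k₀ →+* PK q k₀ r).comp ((algebraMap (MvPolynomial σ F) (RK q k₀)).comp C))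
    (Sum.elim (fun i => C (algebraMap (MvPolynomial σ F) (RK q k₀) (X i))) (yP q k₀ e))

lemma betaS_rename (p : MvPolynomial σ F) :
    betaS q k₀ e (rename Sum.inl p) = C (algebraMap (MvPolynomial σ F) (RK q k₀) p) := by
  have h : (betaS q k₀ e).comp (rename Sum.inl : MvPolynomial σ F →ₐ[F] _).toRingHom =
      (C : RK q k₀ →+* PK q k₀ r).comp (algebraMap (MvPolynomial σ F) (RK q k₀)) := by
    apply MvPolynomial.ringHom_ext
    · intro a
      simp [betaS]
    · intro i
      simp [betaS]
  exact RingHom.congr_fun h p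

lemma betaS_gpoly : betaS q k₀ e (gpoly q) = 0 := by
  unfold gpoly
  rw [map_sub, map_one, map_sum, sub_eq_zero, ← sum_yP q k₀ e]
  refine Finset.sum_congr rfl fun l _ => ?_
  rw [map_mul, betaS_rename]
  congr 1
  simp [betaS]

/-- The restriction to the chart. -/
noncomputable def beta : BB q →+* PK q k₀ r :=
  Ideal.Quotient.lift _ (betaS q k₀ e) (by
    intro a ha
    have : Ideal.span {gpoly q} ≤ RingHom.ker (betaS q k₀ e) := by
      rw [Ideal.span_le]
      rintro x rfl
      exact betaS_gpoly q k₀ e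
    exact this ha)

lemma beta_toB (p : MvPolynomial σ F) : beta q k₀ e (toB q p) = C (algebraMap (MvPolynomial σ F) (RK q k₀) p) :=
  betaS_rename q k₀ e p

lemma beta_yB (l : τ) : beta q k₀ e (yB q l) = yP q k₀ e l := by
  have : beta q k₀ e (yB q l) = betaS q k₀ e (X (Sum.inr l)) := rfl
  rw [this]
  simp [betaS]

omit [DecidableEq τ] in
/-- Two maps out of `BB q` agree if they agree on the base and on the fibre coordinates. -/
lemma BB_hom_ext {T : Type} [CommRing T] {f g : BB q →+* T}
    (h1 : f.comp (toB q) = g.comp (toB q)) (h2 : ∀ l, f (yB q l) = g (yB q l)) : f = g := by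
  apply Ideal.Quotient.ringHom_ext
  apply MvPolynomial.ringHom_ext
  · intro a
    have := RingHom.congr_fun h1 (C a)
    simpa [toB] using this
  · rintro (i | l)
    · have := RingHom.congr_fun h1 (X i)
      simpa [toB] using this
    · exact h2 l

theorem isPushout_chart :
    IsPushout (CommRingCat.ofHom (toB q))
      (CommRingCat.ofHom (algebraMap (MvPolynomial σ F) (RK q k₀)))
      (CommRingCat.ofHom (beta q k₀ e)) (CommRingCat.ofHom (C : RK q k₀ →+* PK q k₀ r)) := by
  refine ⟨⟨?_⟩, ⟨PushoutCocone.IsColimit.mk _ (fun s => CommRingCat.ofHom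
    (eval₂Hom s.inr.hom (fun j => s.inl.hom (yB q (e.symm j).1)))) ?_ ?_ ?_⟩⟩
  · apply CommRingCat.hom_ext
    apply RingHom.ext
    intro p
    exact beta_toB q k₀ e p
  · intro s
    have hcond : s.inl.hom.comp (toB q) =
        s.inr.hom.comp (algebraMap (MvPolynomial σ F) (RK q k₀)) := by
      have := s.condition
      ext p
      · exact RingHom.congr_fun (congrArg CommRingCat.Hom.hom this) (C p)
      · exact RingHom.congr_fun (congrArg CommRingCat.Hom.hom this) (X p)
    ext1
    apply BB_hom_ext
    · rw [CommRingCat.hom_comp, CommRingCat.hom_ofHom, CommRingCat.hom_ofHom, RingHom.comp_assoc,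
        hcond]
      apply RingHom.ext
      intro p
      rw [RingHom.comp_apply, RingHom.comp_apply, beta_toB, eval₂Hom_C]
      rfl
    · intro l
      rw [CommRingCat.hom_comp, CommRingCat.hom_ofHom, CommRingCat.hom_ofHom, RingHom.comp_apply,
        beta_yB]
      have key : ∀ l' : τ, s.inl.hom (toB q (q l')) =
          s.inr.hom (algebraMap (MvPolynomial σ F) (RK q k₀) (q l')) := fun l' => RingHom.congr_fun hcond (q l')
      by_cases hl : l = k₀
      · subst hl
        rw [yP, dif_pos rfl, map_mul, map_sub, map_one, map_sum, eval₂Hom_C]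
        have h1 : s.inr.hom (algebraMap (MvPolynomial σ F) (RK q l) (q l)) * s.inr.hom (invq q l) = 1 := by
          rw [← map_mul, mul_invq, map_one]
        have h2 : ∑ l', s.inl.hom (yB q l') * s.inl.hom (toB q (q l')) = 1 := by
          have := congrArg s.inl.hom (sum_yB q)
          rw [map_one, map_sum] at this
          rw [← this]
          exact Finset.sum_congr rfl fun _ _ => (map_mul _ _ _).symm
        rw [← Finset.add_sum_erase _ _ (Finset.mem_univ l)] at h2
        have h3 : ∑ l' ∈ Finset.univ.erase l, s.inl.hom (yB q l') * s.inl.hom (toB q (q l')) =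
            ∑ l' : {m : τ // m ≠ l}, (eval₂Hom s.inr.hom
              (fun j => s.inl.hom (yB q (e.symm j).1)))
              (X (e l') * C (algebraMap (MvPolynomial σ F) (RK q l) (q l'.1))) := by
          rw [Finset.sum_subtype (p := fun m => m ≠ l) (Finset.univ.erase l) (by simp)]
          refine Finset.sum_congr rfl fun l' _ => ?_
          rw [map_mul, eval₂Hom_C, eval₂Hom_X', Equiv.symm_apply_apply, key]
        rw [h3] at h2
        have h4 : 1 - ∑ l' : {m : τ // m ≠ l}, (eval₂Hom s.inr.hom
              (fun j => s.inl.hom (yB q (e.symm j).1)))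
              (X (e l') * C (algebraMap (MvPolynomial σ F) (RK q l) (q l'.1))) =
            s.inl.hom (yB q l) * s.inr.hom (algebraMap (MvPolynomial σ F) (RK q l) (q l)) := by
          rw [← h2, key]; ring
        rw [h4]
        calc s.inr.hom (invq q l) * (s.inl.hom (yB q l) *
              s.inr.hom (algebraMap (MvPolynomial σ F) (RK q l) (q l)))
            = s.inl.hom (yB q l) * (s.inr.hom (algebraMap (MvPolynomial σ F) (RK q l) (q l)) *
              s.inr.hom (invq q l)) := by ring
          _ = s.inl.hom (yB q l) := by rw [h1, mul_one]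
      · rw [yP, dif_neg hl, eval₂Hom_X', Equiv.symm_apply_apply]
  · intro s
    ext1
    apply RingHom.ext
    intro a
    rw [CommRingCat.hom_comp, CommRingCat.hom_ofHom, CommRingCat.hom_ofHom, RingHom.comp_apply,
      eval₂Hom_C]
  · intro s m hm1 hm2
    ext1
    apply MvPolynomial.ringHom_ext
    · intro a
      have := RingHom.congr_fun (congrArg CommRingCat.Hom.hom hm2) a
      rw [CommRingCat.hom_ofHom, eval₂Hom_C]
      exact this
    · intro j
      have := RingHom.congr_fun (congrArg CommRingCat.Hom.hom hm1) (yB q (e.symm j).1)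
      rw [CommRingCat.hom_comp, CommRingCat.hom_ofHom, RingHom.comp_apply, beta_yB, yP,
        dif_neg (e.symm j).2] at this
      rw [CommRingCat.hom_ofHom, eval₂Hom_X', ← this]
      simp

end Pool.Agent.Lib.Pb52861c
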