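import Pool.Agent.Lib.Pb52861c.Final

/-!
# The special classes of varieties
-/

set_option autoImplicit false

open AlgebraicGeometry CategoryTheory Limits MvPolynomial Opposite

namespace Pool.Agent.Lib.Pb52861c

variable {F : Type} [Field F]

/-- The degrees `i j` for which `j`, `i - j` and `2 j - i` are at least `r`. -/
def InRange (r i j : ℤ) : Prop := r ≤ j ∧ r ≤ i - j ∧ r ≤ 2 * j - i

/-- The degrees `i j` for which `j` and `i - j` are at least `r` and `2 j - i = s`. -/
def InDegree (r s i j : ℤ) : Prop := r ≤ j ∧ r ≤ i - j ∧ 2 * j - i = s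

/-- The polynomials `g = ∑ y_k q_k(x) - 1` of total degree at most three, with all `q_k` of degree
at most two. -/
def IsCubic {n : ℕ} (g : MvPolynomial (Fin n) F) : Prop := IsSplittingCubic g ∧ g.totalDegree ≤ 3

/-- The entries of the matrix `A` are polynomials of degree at most one. -/
def LinearEntries {n m : ℕ} (A : Matrix (Fin m) (Fin m) (MvPolynomial (Fin n) F)) : Prop :=
  ∀ a b, (A a b).totalDegree ≤ 1

/-- Alternating matrices. -/
def IsAlternating {n m : ℕ} (A : Matrix (Fin m) (Fin m) (MvPolynomial (Fin n) F)) : Prop :=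
  A.transpose = -A ∧ ∀ a, A a a = 0

/-- `g` is the determinant of a matrix with entries of degree at most one. -/
def IsLinearDet {n : ℕ} (g : MvPolynomial (Fin n) F) : Prop :=
  ∃ (m : ℕ) (A : Matrix (Fin m) (Fin m) (MvPolynomial (Fin n) F)), LinearEntries A ∧ A.det = g

/-- `Pr` for all smooth varieties, in the degrees satisfying `P`. -/
def ForAll (Pr : SmVar F → ℤ → ℤ → Prop) (P : ℤ → ℤ → Prop) : Prop :=
  ∀ (X : SmVar F) (i j : ℤ), P i j → Pr X i j

/-- `Pr` for all smooth affine varieties, in the degrees satisfying `P`. -/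
def ForAffine (Pr : SmVar F → ℤ → ℤ → Prop) (P : ℤ → ℤ → Prop) : Prop :=
  ∀ X : SmVar F, IsAffine X.sch → ∀ i j : ℤ, P i j → Pr X i j

/-- `Pr` for the smooth affine hypersurfaces `g = 0`, `g` as in `IsCubic`, in the degrees
satisfying `P`. -/
def ForCubics (Pr : SmVar F → ℤ → ℤ → Prop) (P : ℤ → ℤ → Prop) : Prop :=
  ∀ (n : ℕ) (g : MvPolynomial (Fin n) F) (hg : SmoothHyp g), IsCubic g →
    ∀ i j : ℤ, P i j → Pr (hyp g hg) i j

/-- `Pr` for the complements `g ≠ 0` in affine space, `g` as in `IsCubic`, in the degrees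
satisfying `P`. -/
def ForComplements (Pr : SmVar F → ℤ → ℤ → Prop) (P : ℤ → ℤ → Prop) : Prop :=
  ∀ (n : ℕ) (g : MvPolynomial (Fin n) F), IsCubic g → ∀ i j : ℤ, P i j → Pr (compl g) i j

/-- `Pr` for the open subsets `det A ≠ 0` of affine space, `A` a square matrix of polynomials of
degree at most one (the intersections of affine linear spaces of matrices with general linear
groups). -/
def ForLinearSections (Pr : SmVar F → ℤ → ℤ → Prop) (P : ℤ → ℤ → Prop) : Prop :=
  ∀ (n m : ℕ) (A : Matrix (Fin m) (Fin m) (MvPolynomial (Fin n) F)), LinearEntries A →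
    ∀ i j : ℤ, P i j → Pr (compl A.det) i j

/-- The same for symmetric matrices `A`. -/
def ForSymmetricSections (Pr : SmVar F → ℤ → ℤ → Prop) (P : ℤ → ℤ → Prop) : Prop :=
  ∀ (n m : ℕ) (A : Matrix (Fin m) (Fin m) (MvPolynomial (Fin n) F)), A.IsSymm →
    LinearEntries A → ∀ i j : ℤ, P i j → Pr (compl A.det) i j

/-- The same for alternating matrices `A`. -/
def ForAlternatingSections (Pr : SmVar F → ℤ → ℤ → Prop) (P : ℤ → ℤ → Prop) : Prop :=
  ∀ (n m : ℕ) (A : Matrix (Fin m) (Fin m) (MvPolynomial (Fin n) F)), IsAlternating A →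
    LinearEntries A → ∀ i j : ℤ, P i j → Pr (compl A.det) i j

variable {K : Type} [Field K] (T : CycleTheory F K)

/-- Injectivity and surjectivity. -/
def CycleData.Bij (D : CycleData F K) (X : SmVar F) (i j : ℤ) : Prop := D.Inj X i j ∧ D.Surj X i j

theorem universality' (X : SmVar F)
    (hX : IsAffine X.sch) (d : ℕ) (hd : X.Pure d) (i j r : ℤ) :
    ∃ (n : ℕ) (g : MvPolynomial (Fin n) F) (hg : SmoothHyp g) (i' j' : ℤ),
      IsCubic g ∧ IsLinearDet g ∧ InRange r i' j' ∧
      T.Same X i j (hyp g hg) i' j' ∧ T.Same X i j (compl g) (i' + 1) (j' + 1) := by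
  obtain ⟨n, g, hg, i', j', h1, h2, h3, h4, h5, h6, h7⟩ := universality T X hX d hd i j r
  exact ⟨n, g, hg, i', j', ⟨h1, h2⟩, exists_det_rep g, ⟨h3, h4, h5⟩, h6, h7⟩

theorem goodProp_of_mem {Pr : SmVar F → ℤ → ℤ → Prop}
    (hPr : Pr = T.Inj ∨ Pr = T.Surj ∨ Pr = T.Bij) : GoodProp T Pr := by
  rcases hPr with h | h | h
  · rw [h]; exact goodProp_inj T
  · rw [h]; exact goodProp_surj T
  · rw [h]; exact (goodProp_inj T).and T (goodProp_surj T)

/-- The pieces of a finite disjoint decomposition of an affine variety are affine. -/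
lemma affine_piece {X : SmVar F} (hX : IsAffine X.sch) {k : ℕ} (U : Fin k → SmVar F)
    (o : ∀ a, U a ⟶ X) (h1 : ∀ a, IsOpenImmersion (SmVar.mor (o a)))
    (h2 : ∀ a b, a ≠ b → Disjoint (Set.range (SmVar.mor (o a))) (Set.range (SmVar.mor (o b))))
    (h3 : (⋃ a, Set.range (SmVar.mor (o a))) = Set.univ) (a : Fin k) : IsAffine (U a).sch := by
  have ha := h1 a
  have hc : IsClosed (Set.range (SmVar.mor (o a))) := by
    have h4 : (Set.range (SmVar.mor (o a)))ᶜ = ⋃ b : {b : Fin k // b ≠ a},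
        Set.range (SmVar.mor (o b.1)) := by
      ext x
      simp only [Set.mem_compl_iff, Set.mem_iUnion]
      constructor
      · intro hx
        have hx' : x ∈ ⋃ a, Set.range (SmVar.mor (o a)) := by rw [h3]; trivial
        obtain ⟨b, hb⟩ := Set.mem_iUnion.mp hx'
        refine ⟨⟨b, ?_⟩, hb⟩
        rintro rfl
        exact hx hb
      · rintro ⟨⟨b, hb⟩, hxb⟩ hx
        exact Set.disjoint_left.mp (h2 b a hb) hxb hx
    rw [← isOpen_compl_iff, h4]
    refine isOpen_iUnion fun b => ?_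
    have hb := h1 b.1
    exact (SmVar.mor (o b.1)).opensRange.isOpen
  have hcl : IsClosedImmersion (SmVar.mor (o a)) := IsClosedImmersion.of_isPreimmersion _ hc
  exact isAffine_of_isAffineHom (SmVar.mor (o a))

/-- A property which holds for pure dimensional affine varieties holds for affine varieties. -/
theorem GoodProp.affine_of_pure {Pr : SmVar F → ℤ → ℤ → Prop} (hPr : GoodProp T Pr) (i j : ℤ)
    (h : ∀ X : SmVar F, IsAffine X.sch → ∀ d, X.Pure d → Pr X i j)
    (X : SmVar F) (hX : IsAffine X.sch) : Pr X i j := by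
  obtain ⟨k, U, o, h1, h2, h3, h4⟩ := exists_pure_decomposition X
  refine hPr.add U o h1 h2 h3 i j fun a => ?_
  obtain ⟨d, hd⟩ := h4 a
  exact h (U a) (affine_piece hX U o h1 h2 h3 a) d hd

lemma isAffine_hyp {n : ℕ} (g : MvPolynomial (Fin n) F) (hg : SmoothHyp g) :
    IsAffine (hyp g hg).sch := by
  change IsAffine (SpecOver F (MvPolynomial (Fin n) F ⧸ Ideal.span {g})).left
  infer_instance

lemma isAffine_compl {n : ℕ} (g : MvPolynomial (Fin n) F) : IsAffine (compl g).sch := by
  change IsAffine (SpecOver F (Localization.Away g)).left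
  infer_instance

theorem tfae' {Pr : SmVar F → ℤ → ℤ → Prop} (hPr : GoodProp T Pr) (r : ℤ) :
    List.TFAE [ForAffine Pr fun _ _ => True, ForCubics Pr (InRange r),
      ForComplements Pr (InRange r), ForLinearSections Pr (InRange r),
      ForSymmetricSections Pr (InRange r), ForAlternatingSections Pr (InRange r)] := by
  tfae_have 1 → 2 := fun h _ g hg _ _ _ _ => h _ (isAffine_hyp g hg) _ _ trivial
  tfae_have 1 → 5 := fun h _ _ A _ _ _ _ _ => h _ (isAffine_compl A.det) _ _ trivial
  tfae_have 1 → 6 := fun h _ _ A _ _ _ _ _ => h _ (isAffine_compl A.det) _ _ trivial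
  tfae_have 5 → 4 := by
    intro h n m A hA i j h1
    obtain ⟨S, hS, hS', hs⟩ := exists_symm T A hA i j
    exact (hPr.same hs).mpr (h n _ S hS hS' i j h1)
  tfae_have 6 → 4 := by
    intro h n m A hA i j h1
    obtain ⟨S, hS, hS', hs⟩ := exists_alt T A hA i j
    exact (hPr.same hs).mpr (h n _ S hS hS' i j h1)
  tfae_have 4 → 3 := by
    intro h n g _ i j h1
    obtain ⟨m, A, hA, rfl⟩ := exists_det_rep g
    exact h n m A hA i j h1
  tfae_have 2 → 1 := by
    intro h X hX i j _
    refine hPr.affine_of_pure T i j (fun X hX d hd => ?_) X hX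
    obtain ⟨n, g, hg, i', j', h1, h2, h3, h4, h5, h6, h7⟩ := universality T X hX d hd i j r
    exact (hPr.same h6).mpr (h n g hg ⟨h1, h2⟩ i' j' ⟨h3, h4, h5⟩)
  tfae_have 3 → 1 := by
    intro h X hX i j _
    refine hPr.affine_of_pure T i j (fun X hX d hd => ?_) X hX
    obtain ⟨n, g, hg, i', j', h1, h2, h3, h4, h5, h6, h7⟩ := universality T X hX d hd i j r
    exact (hPr.same h7).mpr
      (h n g ⟨h1, h2⟩ (i' + 1) (j' + 1) ⟨by omega, by omega, by omega⟩)
  tfae_finish

theorem degree' {Pr : SmVar F → ℤ → ℤ → Prop} (hPr : GoodProp T Pr) (r s : ℤ) :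
    (ForCubics Pr (InDegree r (s + 1)) → ForAffine Pr fun i j => 2 * j - i = s) ∧
      (ForComplements Pr (InDegree r (s + 2)) → ForAffine Pr fun i j => 2 * j - i = s) := by
  refine ⟨fun h X hX i j hs => ?_, fun h X hX i j hs => ?_⟩
  · refine hPr.affine_of_pure T i j (fun X hX d hd => ?_) X hX
    obtain ⟨n, g, hg, i', j', h1, h2, _, h4, h5, h6, h7, h8⟩ :=
      universality_affine T X hX d hd i j r
    exact (hPr.same h7).mpr (h n g hg ⟨h1, h2⟩ i' j' ⟨h4, h5, by omega⟩)
  · refine hPr.affine_of_pure T i j (fun X hX d hd => ?_) X hX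
    obtain ⟨n, g, hg, i', j', h1, h2, _, h4, h5, h6, h7, h8⟩ :=
      universality_affine T X hX d hd i j r
    exact (hPr.same h8).mpr
      (h n g ⟨h1, h2⟩ (i' + 1) (j' + 1) ⟨by omega, by omega, by omega⟩)

theorem all_of_affine' {Pr : SmVar F → ℤ → ℤ → Prop} (hPr : GoodProp T Pr)
    (hJ : JouanolouThomason F) (P : ℤ → ℤ → Prop) (h : ForAffine Pr P) : ForAll Pr P := by
  intro X i j hP
  obtain ⟨Y, f, r, hY, hf⟩ := hJ X
  exact (hPr.same (T.same_bundle f r hf i j)).mpr (h Y hY i j hP)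

end Pool.Agent.Lib.Pb52861c
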