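import Pool.Agent.Lib.Pb52861c.Val
import Pool.Agent.Lib.Pb52861c.Stmt

/-!
# From the record of the statement to the record of the proofs
-/

set_option autoImplicit false

open AlgebraicGeometry CategoryTheory Limits MvPolynomial Opposite

namespace Pool.Agent.Lib.Pb52861c

variable {F K : Type} [Field F] [Field K]

/-- The data. -/
def CycleFunctor.data (T : CycleFunctor F K) : CycleData F K where
  M i j :=
    { obj := fun X => (T.toFunctor.obj X).M i j
      map := fun f => (T.toFunctor.map f).m i j
      map_id := fun X => by rw [T.toFunctor.map_id]; rfl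
      map_comp := fun f g => by rw [T.toFunctor.map_comp]; rfl }
  H i j :=
    { obj := fun X => (T.toFunctor.obj X).H i j
      map := fun f => (T.toFunctor.map f).h i j
      map_id := fun X => by rw [T.toFunctor.map_id]; rfl
      map_comp := fun f g => by rw [T.toFunctor.map_comp]; rfl }
  frob i j :=
    { app := fun X => (T.toFunctor.obj X).frob i j
      naturality := fun X Y f => (T.toFunctor.map f).h_frob i j }
  c i j :=
    { app := fun X => (T.toFunctor.obj X).c i j
      naturality := fun X Y f => (T.toFunctor.map f).m_c i j }
  c_frob i j := by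
    ext X : 2
    exact (T.toFunctor.obj X).c_frob i j

/-- The model. -/
def CycleModel.theory (C : CycleModel F K) : CycleTheory F K where
  toCycleData := C.T.data
  homotopy_M := by
    intro X Y f r hf i j
    obtain ⟨g, h1, h2⟩ := C.homotopy f ⟨r, hf⟩
    exact ⟨g.m i j, congrFun (congrFun (congrArg Val.Hom.m h1) i) j,
      congrFun (congrFun (congrArg Val.Hom.m h2) i) j⟩
  homotopy_H := by
    intro X Y f r hf i j
    obtain ⟨g, h1, h2⟩ := C.homotopy f ⟨r, hf⟩
    exact ⟨g.h i j, congrFun (congrFun (congrArg Val.Hom.h h1) i) j,
      congrFun (congrFun (congrArg Val.Hom.h h2) i) j⟩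
  localization := by
    intro Z X U a o d n h1 h2 h3 h4 h5
    obtain ⟨L⟩ := C.localization a o d n ⟨h1, h2, h3, h4, h5⟩
    exact ⟨{ pushM := fun i j => L.push.m i j
             bdM := fun i j => L.bd.m i j
             pushH := fun i j => L.push.h i j
             bdH := fun i j => L.bd.h i j
             exact_M1 := L.exact₁.1
             exact_M2 := L.exact₂.1
             exact_M3 := L.exact₃.1
             exact_H1 := L.exact₁.2
             exact_H2 := L.exact₂.2
             exact_H3 := L.exact₃.2
             push_c := L.push.m_c
             bd_c := L.bd.m_c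
             push_frob := L.push.h_frob
             bd_frob := L.bd.h_frob }⟩
  additive_M := by
    intro X k U o h1 h2 h3 i j
    exact (C.additive o ⟨h1, h2, h3⟩).1 i j
  additive_H := by
    intro X k U o h1 h2 h3 i j
    exact (C.additive o ⟨h1, h2, h3⟩).2 i j
  M_affine := fun n i j hj => (C.affine n).M_zero i j hj
  H_affine := fun n i j hi => (C.affine n).H_zero i j hi
  H_affine_zero := fun n j hj x hx => (C.affine n).inv_zero j hj x hx
  H_neg := C.neg

/-- The cycle class map of `X` in degrees `i j` is isomorphic to that of `Y` in degrees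
`i' j'`. -/
def CycleModel.Same (C : CycleModel F K) (X : SmVar F) (i j : ℤ) (Y : SmVar F) (i' j' : ℤ) :
    Prop := (C.T.val X).Same i j (C.T.val Y) i' j'

/-- The cycle class map of `X` in degrees `i j` is injective. -/
def CycleModel.Inj (C : CycleModel F K) (X : SmVar F) (i j : ℤ) : Prop := (C.T.val X).Inj i j

/-- The cycle class map of `X` in degrees `i j` is surjective onto the invariants. -/
def CycleModel.Surj (C : CycleModel F K) (X : SmVar F) (i j : ℤ) : Prop := (C.T.val X).Surj i j

/-- The cycle class map of `X` in degrees `i j` is bijective onto the invariants. -/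
def CycleModel.Bij (C : CycleModel F K) (X : SmVar F) (i j : ℤ) : Prop :=
  C.Inj X i j ∧ C.Surj X i j

theorem CycleModel.same_of (C : CycleModel F K) {X Y : SmVar F} {i j i' j' : ℤ}
    (h : C.theory.Same X i j Y i' j') : C.Same X i j Y i' j' := by
  obtain ⟨a, b, hab⟩ := h
  refine ⟨LinearEquiv.toModuleIso a, LinearEquiv.toModuleIso b, ?_⟩
  apply ModuleCat.hom_ext
  apply LinearMap.ext
  intro x
  exact hab x

theorem CycleModel.inj_eq (C : CycleModel F K) : C.Inj = C.theory.Inj := rfl

theorem CycleModel.surj_eq (C : CycleModel F K) : C.Surj = C.theory.Surj := rfl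

theorem CycleModel.bij_eq (C : CycleModel F K) : C.Bij = C.theory.Bij := rfl

end Pool.Agent.Lib.Pb52861c
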