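import Mathlib

/-!
# Determinantal representations

Every polynomial over a commutative ring is the determinant of a square matrix whose entries are
polynomials of degree at most one.
-/

set_option autoImplicit false

open MvPolynomial Matrix

namespace Pool.Agent.Lib.Pb52861c

variable {F : Type} [Field F] {σ : Type}

/-- A matrix of constants as a matrix of polynomials. -/
noncomputable def mC (σ : Type) {m n : Type} (u : Matrix m n F) : Matrix m n (MvPolynomial σ F) :=
  u.map (fun a => C a)

lemma mC_apply {m n : Type} (u : Matrix m n F) (a : m) (b : n) :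
    (mC σ u) a b = C (u a b) := rfl

/-- `g` is an entry of the inverse of a matrix of affine linear forms with determinant one. -/
def LinRep (g : MvPolynomial σ F) : Prop :=
  ∃ (n : ℕ) (L Li : Matrix (Fin n) (Fin n) (MvPolynomial σ F)) (u : Matrix (Fin 1) (Fin n) F)
    (v : Matrix (Fin n) (Fin 1) F), L * Li = 1 ∧ L.det = 1 ∧
      (∀ a b, (L a b).totalDegree ≤ 1) ∧
      (mC σ u * Li * mC σ v : Matrix (Fin 1) (Fin 1) (MvPolynomial σ F)) 0 0 = g

/-- The same with an arbitrary finite index type. -/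
lemma LinRep.of_fintype {ι : Type} [Fintype ι] [DecidableEq ι] {g : MvPolynomial σ F}
    (L Li : Matrix ι ι (MvPolynomial σ F)) (u : Matrix (Fin 1) ι F) (v : Matrix ι (Fin 1) F)
    (h1 : L * Li = 1) (h2 : L.det = 1) (h3 : ∀ a b, (L a b).totalDegree ≤ 1)
    (h4 : (mC σ u * Li * mC σ v : Matrix (Fin 1) (Fin 1) (MvPolynomial σ F)) 0 0 = g) : LinRep g := by
  let e := Fintype.equivFin ι
  refine ⟨Fintype.card ι, L.submatrix e.symm e.symm, Li.submatrix e.symm e.symm,
    u.submatrix id e.symm, v.submatrix e.symm id, ?_, ?_, ?_, ?_⟩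
  · rw [Matrix.submatrix_mul_equiv, h1, Matrix.submatrix_one_equiv]
  · rw [Matrix.det_submatrix_equiv_self, h2]
  · intro a b
    exact h3 _ _
  · rw [← h4]
    have e1 : (mC σ (u.submatrix id e.symm) : Matrix _ _ (MvPolynomial σ F)) =
        (mC σ u : Matrix _ _ (MvPolynomial σ F)).submatrix id e.symm := rfl
    have e2 : (mC σ (v.submatrix e.symm id) : Matrix _ _ (MvPolynomial σ F)) =
        (mC σ v : Matrix _ _ (MvPolynomial σ F)).submatrix e.symm id := rfl
    rw [e1, e2, Matrix.submatrix_mul_equiv, Matrix.submatrix_mul_equiv]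
    rfl

lemma totalDegree_C_le {a : F} {k : ℕ} : (C a : MvPolynomial σ F).totalDegree ≤ k := by
  rw [totalDegree_C]; exact Nat.zero_le _

lemma linRep_C (a : F) : LinRep (C a : MvPolynomial σ F) := by
  refine LinRep.of_fintype (ι := Fin 1) 1 1 (Matrix.of fun _ _ => a) (Matrix.of fun _ _ => 1) ?_ ?_ ?_ ?_
  · rw [one_mul]
  · rw [Matrix.det_one]
  · intro x y
    rw [Matrix.one_apply]
    split_ifs
    · rw [totalDegree_one]; norm_num
    · rw [totalDegree_zero]; norm_num
  · simp [Matrix.mul_apply, mC_apply]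

lemma LinRep.add {g h : MvPolynomial σ F} (hg : LinRep g) (hh : LinRep h) : LinRep (g + h) := by
  obtain ⟨n, L, Li, u, v, h1, h2, h3, h4⟩ := hg
  obtain ⟨n', L', Li', u', v', h1', h2', h3', h4'⟩ := hh
  refine LinRep.of_fintype (ι := Fin n ⊕ Fin n') (Matrix.fromBlocks L 0 0 L')
    (Matrix.fromBlocks Li 0 0 Li') (Matrix.fromCols u u') (Matrix.fromRows v v') ?_ ?_ ?_ ?_
  · rw [Matrix.fromBlocks_multiply, h1, h1']
    simp
  · rw [Matrix.det_fromBlocks_zero₂₁, h2, h2', one_mul]
  · rintro (a | a) (b | b)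
    · exact h3 a b
    · simp
    · simp
    · exact h3' a b
  · rw [← h4, ← h4']
    have e1 : (mC σ (Matrix.fromCols u u') : Matrix _ _ (MvPolynomial σ F)) =
        Matrix.fromCols (mC σ u) (mC σ u') := by
      ext a (b | b) <;> rfl
    have e2 : (mC σ (Matrix.fromRows v v') : Matrix _ _ (MvPolynomial σ F)) =
        Matrix.fromRows (mC σ v) (mC σ v') := by
      ext (a | a) b <;> rfl
    rw [e1, e2, Matrix.fromCols_mul_fromBlocks, Matrix.fromCols_mul_fromRows]
    simp

lemma LinRep.mul_X {g : MvPolynomial σ F} (hg : LinRep g) (i : σ) : LinRep (g * X i) := by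
  obtain ⟨n, L, Li, u, v, h1, h2, h3, h4⟩ := hg
  refine LinRep.of_fintype (ι := Fin n ⊕ Fin 1)
    (Matrix.fromBlocks L (-((X i : MvPolynomial σ F) • mC σ v)) 0 1)
    (Matrix.fromBlocks Li (Li * ((X i : MvPolynomial σ F) • mC σ v : Matrix (Fin n) (Fin 1) (MvPolynomial σ F)) :
      Matrix (Fin n) (Fin 1) (MvPolynomial σ F)) 0 1)
    (Matrix.fromCols u 0) (Matrix.fromRows 0 1) ?_ ?_ ?_ ?_
  · rw [Matrix.fromBlocks_multiply]
    rw [← Matrix.mul_assoc, h1]
    simp
  · rw [Matrix.det_fromBlocks_zero₂₁, h2, Matrix.det_one, one_mul]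
  · rintro (a | a) (b | b)
    · exact h3 a b
    · simp only [Matrix.fromBlocks_apply₁₂, Matrix.neg_apply, Matrix.smul_apply, mC_apply,
        smul_eq_mul, totalDegree_neg]
      refine (totalDegree_mul _ _).trans ?_
      rw [totalDegree_C, totalDegree_X]
    · simp
    · simp only [Matrix.fromBlocks_apply₂₂, Matrix.one_apply]
      split_ifs
      · rw [totalDegree_one]; norm_num
      · rw [totalDegree_zero]; norm_num
  · rw [← h4]
    have e1 : (mC σ (Matrix.fromCols u (0 : Matrix (Fin 1) (Fin 1) F)) :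
        Matrix _ _ (MvPolynomial σ F)) = Matrix.fromCols (mC σ u) 0 := by
      ext a (b | b) <;> simp [mC_apply]
    have e2 : (mC σ (Matrix.fromRows (0 : Matrix (Fin n) (Fin 1) F)
        (1 : Matrix (Fin 1) (Fin 1) F)) : Matrix _ _ (MvPolynomial σ F)) =
        Matrix.fromRows 0 1 := by
      ext (a | a) b
      · simp [mC_apply]
      · have ha : a = 0 := Subsingleton.elim _ _
        have hb : b = 0 := Subsingleton.elim _ _
        subst ha; subst hb
        simp [mC_apply]
    rw [e1, e2, Matrix.fromCols_mul_fromBlocks, Matrix.fromCols_mul_fromRows]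
    simp [Matrix.mul_assoc, mul_comm]

theorem linRep (g : MvPolynomial σ F) : LinRep g := by
  induction g using MvPolynomial.induction_on with
  | C a => exact linRep_C a
  | add p q hp hq => exact hp.add hq
  | mul_X p i hp => exact hp.mul_X i

/-- Determinantal representation of an arbitrary polynomial. -/
theorem exists_det_rep (g : MvPolynomial σ F) :
    ∃ (n : ℕ) (A : Matrix (Fin n) (Fin n) (MvPolynomial σ F)),
      (∀ a b, (A a b).totalDegree ≤ 1) ∧ A.det = g := by
  obtain ⟨n, L, Li, u, v, h1, h2, h3, h4⟩ := linRep g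
  let M : Matrix (Fin n ⊕ Fin 1) (Fin n ⊕ Fin 1) (MvPolynomial σ F) :=
    Matrix.fromBlocks L (mC σ v) (-(mC σ u)) 0
  have h1' : Li * L = 1 := mul_eq_one_comm.mp h1
  have hinv : Invertible L := ⟨Li, h1', h1⟩
  have hM : M.det = g := by
    rw [Matrix.det_fromBlocks₁₁, h2, one_mul]
    have hLi : ⅟L = Li := invOf_eq_right_inv h1
    rw [hLi, Matrix.det_fin_one, ← h4]
    simp
  let e : Fin n ⊕ Fin 1 ≃ Fin (n + 1) := finSumFinEquiv
  refine ⟨n + 1, M.submatrix e.symm e.symm, ?_, ?_⟩
  · intro a b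
    rw [Matrix.submatrix_apply]
    rcases e.symm a with a | a <;> rcases e.symm b with b | b
    · exact h3 a b
    · simp [M, mC_apply]
    · simp [M, mC_apply]
    · simp [M]
  · rw [Matrix.det_submatrix_equiv_self, hM]

end Pool.Agent.Lib.Pb52861c
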