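import Pool.Agent.Lib.Pb52861c.Sym

/-!
# Reduction of a property of cycle class maps to cubic hypersurfaces
-/

set_option autoImplicit false

open AlgebraicGeometry CategoryTheory Limits MvPolynomial Opposite

namespace Pool.Agent.Lib.Pb52861c

variable {F : Type} [Field F]

/-- The theorem of Jouanolou and Thomason: every smooth variety has a bundle of affine spaces with
affine total space. -/
def JouanolouThomason (F : Type) [Field F] : Prop :=
  ∀ X : SmVar F, ∃ (Y : SmVar F) (f : Y ⟶ X) (r : ℕ),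
    IsAffine Y.sch ∧ IsAffineBundle r (SmVar.mor f)

variable {K : Type} [Field K] (T : CycleTheory F K)

/-- Properties of cycle class maps that only depend on the isomorphism class of the map and are
stable under finite direct sums. -/
structure GoodProp (Pr : SmVar F → ℤ → ℤ → Prop) : Prop where
  same : ∀ {X X' : SmVar F} {i j i' j' : ℤ}, T.Same X i j X' i' j' → (Pr X i j ↔ Pr X' i' j')
  add : ∀ {X : SmVar F} {k : ℕ} (U : Fin k → SmVar F) (o : ∀ a, U a ⟶ X),
    (∀ a, IsOpenImmersion (SmVar.mor (o a))) →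
    (∀ a b, a ≠ b → Disjoint (Set.range (SmVar.mor (o a))) (Set.range (SmVar.mor (o b)))) →
    (⋃ a, Set.range (SmVar.mor (o a))) = Set.univ →
    ∀ i j, (∀ a, Pr (U a) i j) → Pr X i j

lemma goodProp_inj : GoodProp T (fun X i j => T.Inj X i j) where
  same := Same.inj
  add := by
    intro X k U o h1 h2 h3 i j h x y hxy
    apply (T.additive_M U o h1 h2 h3 i j).1
    funext a
    apply h a
    have e1 := ConcreteCategory.congr_hom ((T.c i j).naturality (o a).op) x
    have e2 := ConcreteCategory.congr_hom ((T.c i j).naturality (o a).op) y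
    have e3 : (T.c i j).app (op (U a)) ((T.M i j).map (o a).op x) =
        (T.H i j).map (o a).op ((T.c i j).app (op X) x) := e1
    have e4 : (T.c i j).app (op (U a)) ((T.M i j).map (o a).op y) =
        (T.H i j).map (o a).op ((T.c i j).app (op X) y) := e2
    change (T.c i j).app (op (U a)) ((T.M i j).map (o a).op x) =
      (T.c i j).app (op (U a)) ((T.M i j).map (o a).op y)
    rw [e3, e4, hxy]

lemma goodProp_surj : GoodProp T (fun X i j => T.Surj X i j) where
  same := Same.surj
  add := by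
    intro X k U o h1 h2 h3 i j h y hy
    have h4 : ∀ a, ∃ x, (T.c i j).app (op (U a)) x = (T.H i j).map (o a).op y := by
      intro a
      apply h a
      have e1 := ConcreteCategory.congr_hom ((T.frob i j).naturality (o a).op) y
      have e2 : (T.frob i j).app (op (U a)) ((T.H i j).map (o a).op y) =
        (T.H i j).map (o a).op ((T.frob i j).app (op X) y) := e1
      rw [e2, hy]
    choose x hx using h4
    obtain ⟨z, hz⟩ := (T.additive_M U o h1 h2 h3 i j).2 x
    refine ⟨z, ?_⟩
    apply (T.additive_H U o h1 h2 h3 i j).1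
    funext a
    have e1 := ConcreteCategory.congr_hom ((T.c i j).naturality (o a).op) z
    have e2 : (T.c i j).app (op (U a)) ((T.M i j).map (o a).op z) =
        (T.H i j).map (o a).op ((T.c i j).app (op X) z) := e1
    have e3 : (T.M i j).map (o a).op z = x a := congrFun hz a
    change (T.H i j).map (o a).op ((T.c i j).app (op X) z) = (T.H i j).map (o a).op y
    rw [← e2, e3, hx]

lemma GoodProp.and {P Q : SmVar F → ℤ → ℤ → Prop} (hP : GoodProp T P) (hQ : GoodProp T Q) :
    GoodProp T (fun X i j => P X i j ∧ Q X i j) where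
  same := fun h => and_congr (hP.same h) (hQ.same h)
  add := fun U o h1 h2 h3 i j h => ⟨hP.add U o h1 h2 h3 i j fun a => (h a).1,
    hQ.add U o h1 h2 h3 i j fun a => (h a).2⟩

/-- Total spaces of bundles over pure dimensional varieties are pure dimensional. -/
lemma pure_of_bundle {X Y : SmVar F} (f : Y ⟶ X) {r d : ℕ} (hf : IsAffineBundle r (SmVar.mor f))
    (hX : X.Pure d) : Y.Pure (r + d) := by
  have h1 := hf.smooth
  have h2 : SmoothOfRelativeDimension d X.str := hX
  have h3 : Y.str = SmVar.mor f ≫ X.str := (Over.w f.hom).symm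
  change SmoothOfRelativeDimension (r + d) Y.str
  rw [h3]
  exact smoothOfRelativeDimension_comp r d (SmVar.mor f) X.str

/-- A property which holds for pure dimensional affine varieties holds for all varieties. -/
theorem GoodProp.all_of_affine {Pr : SmVar F → ℤ → ℤ → Prop} (hPr : GoodProp T Pr)
    (hJ : JouanolouThomason F) (i j : ℤ)
    (h : ∀ X : SmVar F, IsAffine X.sch → ∀ d, X.Pure d → Pr X i j)
    (X : SmVar F) : Pr X i j := by
  obtain ⟨k, U, o, h1, h2, h3, h4⟩ := exists_pure_decomposition X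
  refine hPr.add U o h1 h2 h3 i j fun a => ?_
  obtain ⟨d, hd⟩ := h4 a
  obtain ⟨Y, f, r, hY, hf⟩ := hJ (U a)
  exact (hPr.same (T.same_bundle f r hf i j)).mpr (h Y hY _ (pure_of_bundle f hf hd))

/-- The statement in degree `s` follows from cubic hypersurfaces in degree `s + 1`. -/
theorem GoodProp.degree_hyp {Pr : SmVar F → ℤ → ℤ → Prop} (hPr : GoodProp T Pr)
    (hJ : JouanolouThomason F) (r s : ℤ)
    (h : ∀ (n : ℕ) (g : MvPolynomial (Fin n) F) (hg : SmoothHyp g), IsSplittingCubic g →
      g.totalDegree ≤ 3 → ∀ i j : ℤ, r ≤ j → r ≤ i - j → 2 * j - i = s + 1 → Pr (hyp g hg) i j)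
    (X : SmVar F) (i j : ℤ) (hs : 2 * j - i = s) : Pr X i j := by
  refine hPr.all_of_affine T hJ i j (fun X hX d hd => ?_) X
  obtain ⟨n, g, hg, i', j', h1, h2, _, h4, h5, h6, h7, h8⟩ :=
    universality_affine T X hX d hd i j r
  exact (hPr.same h7).mpr (h n g hg h1 h2 i' j' h4 h5 (by omega))

/-- The statement in degree `s` follows from complements of cubics in degree `s + 2`. -/
theorem GoodProp.degree_compl {Pr : SmVar F → ℤ → ℤ → Prop} (hPr : GoodProp T Pr)
    (hJ : JouanolouThomason F) (r s : ℤ)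
    (h : ∀ (n : ℕ) (g : MvPolynomial (Fin n) F), IsSplittingCubic g →
      g.totalDegree ≤ 3 → ∀ i j : ℤ, r ≤ j → r ≤ i - j → 2 * j - i = s + 2 → Pr (compl g) i j)
    (X : SmVar F) (i j : ℤ) (hs : 2 * j - i = s) : Pr X i j := by
  refine hPr.all_of_affine T hJ i j (fun X hX d hd => ?_) X
  obtain ⟨n, g, hg, i', j', h1, h2, _, h4, h5, h6, h7, h8⟩ :=
    universality_affine T X hX d hd i j r
  exact (hPr.same h8).mpr (h n g h1 h2 (i' + 1) (j' + 1) (by omega) (by omega) (by omega))

/-- The equivalences, for one property. -/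
theorem GoodProp.tfae {Pr : SmVar F → ℤ → ℤ → Prop} (hPr : GoodProp T Pr)
    (hJ : JouanolouThomason F) (r : ℤ) :
    List.TFAE [
      ∀ (X : SmVar F) (i j : ℤ), Pr X i j,
      ∀ (n : ℕ) (g : MvPolynomial (Fin n) F) (hg : SmoothHyp g), IsSplittingCubic g →
        g.totalDegree ≤ 3 → ∀ i j : ℤ, r ≤ j → r ≤ i - j → r ≤ 2 * j - i → Pr (hyp g hg) i j,
      ∀ (n : ℕ) (g : MvPolynomial (Fin n) F), IsSplittingCubic g → g.totalDegree ≤ 3 →
        ∀ i j : ℤ, r ≤ j → r ≤ i - j → r ≤ 2 * j - i → Pr (compl g) i j,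
      ∀ (n m : ℕ) (A : Matrix (Fin m) (Fin m) (MvPolynomial (Fin n) F)),
        (∀ a b, (A a b).totalDegree ≤ 1) →
        ∀ i j : ℤ, r ≤ j → r ≤ i - j → r ≤ 2 * j - i → Pr (compl A.det) i j,
      ∀ (n m : ℕ) (A : Matrix (Fin m) (Fin m) (MvPolynomial (Fin n) F)), A.IsSymm →
        (∀ a b, (A a b).totalDegree ≤ 1) →
        ∀ i j : ℤ, r ≤ j → r ≤ i - j → r ≤ 2 * j - i → Pr (compl A.det) i j,
      ∀ (n m : ℕ) (A : Matrix (Fin m) (Fin m) (MvPolynomial (Fin n) F)),
        (A.transpose = -A ∧ ∀ a, A a a = 0) → (∀ a b, (A a b).totalDegree ≤ 1) →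
        ∀ i j : ℤ, r ≤ j → r ≤ i - j → r ≤ 2 * j - i → Pr (compl A.det) i j] := by
  tfae_have 1 → 2 := fun h _ _ _ _ _ _ _ _ _ _ => h _ _ _
  tfae_have 1 → 5 := fun h _ _ _ _ _ _ _ _ _ _ => h _ _ _
  tfae_have 1 → 6 := fun h _ _ _ _ _ _ _ _ _ _ => h _ _ _
  tfae_have 5 → 4 := by
    intro h n m A hA i j h1 h2 h3
    obtain ⟨S, hS, hS', hs⟩ := exists_symm T A hA i j
    exact (hPr.same hs).mpr (h n _ S hS hS' i j h1 h2 h3)
  tfae_have 6 → 4 := by
    intro h n m A hA i j h1 h2 h3
    obtain ⟨S, hS, hS', hs⟩ := exists_alt T A hA i j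
    exact (hPr.same hs).mpr (h n _ S hS hS' i j h1 h2 h3)
  tfae_have 4 → 3 := by
    intro h n g _ _ i j h1 h2 h3
    obtain ⟨m, A, hA, rfl⟩ := exists_det_rep g
    exact h n m A hA i j h1 h2 h3
  tfae_have 2 → 1 := by
    intro h X i j
    refine hPr.all_of_affine T hJ i j (fun X hX d hd => ?_) X
    obtain ⟨n, g, hg, i', j', h1, h2, h3, h4, h5, h6, h7⟩ := universality T X hX d hd i j r
    exact (hPr.same h6).mpr (h n g hg h1 h2 i' j' h3 h4 h5)
  tfae_have 3 → 1 := by
    intro h X i j
    refine hPr.all_of_affine T hJ i j (fun X hX d hd => ?_) X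
    obtain ⟨n, g, hg, i', j', h1, h2, h3, h4, h5, h6, h7⟩ := universality T X hX d hd i j r
    exact (hPr.same h7).mpr
      (h n g h1 h2 (i' + 1) (j' + 1) (by omega) (by omega) (by omega))
  tfae_finish

end Pool.Agent.Lib.Pb52861c
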