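import Pool.Agent.Lib.Pb52861c.Objects

/-!
# Universality of smooth affine cubic hypersurfaces
-/

set_option autoImplicit false

open AlgebraicGeometry CategoryTheory Limits MvPolynomial Opposite

namespace Pool.Agent.Lib.Pb52861c

variable {F : Type} [Field F]

section Splittings

variable {N m : ℕ} (q : Fin (m + 1) → MvPolynomial (Fin N) F)

/-- The structure morphism of affine space. -/
noncomputable abbrev strA (F : Type) [Field F] (N : ℕ) :
    Spec (CommRingCat.of (MvPolynomial (Fin N) F)) ⟶ SpecF F :=
  Spec.map (CommRingCat.ofHom (algebraMap F (MvPolynomial (Fin N) F)))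

instance (N : ℕ) : SmoothOfRelativeDimension N (strA F N) := smooth_affine F N

instance (N : ℕ) : Smooth (strA F N) := SmoothOfRelativeDimension.smooth N _

lemma isSmVar_opn : IsSmVar F (Over.mk ((UU q).ι ≫ strA F N)) := by
  refine ⟨?_, ?_, ?_⟩ <;> dsimp <;> infer_instance

/-- The complement in affine space of the common zeros of the `q k`. -/
noncomputable def opn : SmVar F := ⟨Over.mk ((UU q).ι ≫ strA F N), isSmVar_opn q⟩

/-- The inclusion of the complement. -/
noncomputable def opnMor : opn q ⟶ affineSpaceVar F N :=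
  ObjectProperty.homMk (Over.homMk (UU q).ι rfl)

lemma opnMor_mor : SmVar.mor (opnMor q) = (UU q).ι := rfl

lemma strB_eq : Spec.map (CommRingCat.ofHom (algebraMap F (BB q))) =
    prU q ≫ ((UU q).ι ≫ strA F N) := by
  rw [← Category.assoc, prU_ι]
  change _ = Spec.map _ ≫ Spec.map _
  rw [← Spec.map_comp, ← CommRingCat.ofHom_comp]
  congr 2
  ext a
  change _ = Ideal.Quotient.mk _ (rename Sum.inl (algebraMap F _ a))
  rw [MvPolynomial.algebraMap_eq, rename_C]
  rfl

lemma card_tau : Fintype.card (Fin (m + 1)) - 1 = m := by simp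

lemma bundle_prU : IsAffineBundle m (prU q) := by
  have := isAffineBundle_prU q
  rwa [card_tau] at this

lemma smoothRel_B : SmoothOfRelativeDimension (m + N) (SpecOver F (BB q)).hom := by
  change SmoothOfRelativeDimension (m + N) (Spec.map (CommRingCat.ofHom (algebraMap F (BB q))))
  rw [strB_eq]
  have h1 := (bundle_prU q).smooth
  have h2 := smoothOfRelativeDimension_comp 0 N (UU q).ι (strA F N)
  rw [zero_add] at h2
  exact smoothOfRelativeDimension_comp m N (prU q) ((UU q).ι ≫ strA F N)

/-- The hypersurface of splittings. -/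
noncomputable def splV : SmVar F :=
  ⟨SpecOver F (BB q), isSmVar_of_affine F
    (by have := smoothRel_B q; exact SmoothOfRelativeDimension.smooth (m + N) _)⟩

/-- Its projection to the open set. -/
noncomputable def splMor : splV q ⟶ opn q :=
  ObjectProperty.homMk (Over.homMk (prU q) (strB_eq q).symm)

theorem CycleTheory.same_spl {K : Type} [Field K] (T : CycleTheory F K) (i j : ℤ) :
    T.Same (opn q) i j (splV q) i j :=
  T.same_bundle (splMor q) m (bundle_prU q) i j

end Splittings

section Hypersurface

variable {n : ℕ} (g : MvPolynomial (Fin n) F)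

/-- The inclusion of the open set `g ≠ 0`. -/
noncomputable def complMor : compl g ⟶ affineSpaceVar F n :=
  ObjectProperty.homMk (specMor
    (IsScalarTower.toAlgHom F (MvPolynomial (Fin n) F) (Localization.Away g)))

/-- The inclusion of the hypersurface. -/
noncomputable def hypMor (hg : SmoothHyp g) : hyp g hg ⟶ affineSpaceVar F n :=
  ObjectProperty.homMk (specMor (Ideal.Quotient.mkₐ F (Ideal.span {g})))

lemma complMor_isOpenImmersion : IsOpenImmersion (SmVar.mor (complMor g)) := by
  change IsOpenImmersion (Spec.map (CommRingCat.ofHom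
    (algebraMap (MvPolynomial (Fin n) F) (Localization.Away g))))
  infer_instance

lemma range_complMor : Set.range (SmVar.mor (complMor g)) =
    (PrimeSpectrum.basicOpen g : Set (PrimeSpectrum (MvPolynomial (Fin n) F))) :=
  PrimeSpectrum.localization_away_comap_range (Localization.Away g) g

lemma range_hypMor (hg : SmoothHyp g) : Set.range (SmVar.mor (hypMor g hg)) =
    PrimeSpectrum.zeroLocus {g} := by
  have h := (range_specMor_of_surjective (F := F) (Ideal.Quotient.mkₐ F (Ideal.span {g}))
    (Ideal.Quotient.mkₐ_surjective F _)).2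
  have hk : RingHom.ker (Ideal.Quotient.mkₐ F (Ideal.span {g})) = Ideal.span {g} := by
    ext x
    rw [RingHom.mem_ker, Ideal.Quotient.mkₐ_eq_mk, Ideal.Quotient.eq_zero_iff_mem]
  rw [hk, PrimeSpectrum.zeroLocus_span] at h
  exact h

theorem CycleTheory.same_hyp_compl {K : Type} [Field K] (T : CycleTheory F K)
    (hg : SmoothHyp g) {d : ℕ} (hd : (hyp g hg).Pure d) (hdn : d + 1 = n) (i j : ℤ) (hj : 1 ≤ j) :
    T.Same (compl g) i j (hyp g hg) (i - 1) (j - 1) := by
  have h := T.same_complement (hypMor g hg) (complMor g) d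
    (range_specMor_of_surjective (F := F) (Ideal.Quotient.mkₐ F (Ideal.span {g}))
      (Ideal.Quotient.mkₐ_surjective F _)).1 (complMor_isOpenImmersion g)
    (by
      rw [range_complMor, range_hypMor, PrimeSpectrum.basicOpen_eq_zeroLocus_compl]
      rfl) hd (by omega) i j hj
  have e1 : (n:ℤ) - d = 1 := by
    have : ((d + 1 : ℕ) : ℤ) = n := by exact_mod_cast congrArg Nat.cast hdn
    push_cast at this
    omega
  rw [e1] at h
  have e2 : i + 1 - 2 * 1 = i - 1 := by ring
  rw [e2] at h
  exact h

end Hypersurface

section Transport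

variable {N m : ℕ} (q : Fin (m + 1) → MvPolynomial (Fin N) F)

/-- The cubic `∑ y_k q_k(x) - 1` in the variables `x`, `y`, numbered consecutively. -/
noncomputable def cubic : MvPolynomial (Fin (N + (m + 1))) F :=
  renameEquiv F finSumFinEquiv (gpoly q)

lemma cubic_eq : cubic q = ∑ k, X (Fin.natAdd N k) * rename (Fin.castAdd (m + 1)) (q k) - 1 := by
  unfold cubic gpoly
  rw [map_sub, map_one, map_sum]
  congr 1
  refine Finset.sum_congr rfl fun k _ => ?_
  rw [map_mul]
  congr 1
  · simp
  · simp only [renameEquiv_apply, rename_rename]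
    rfl

lemma totalDegree_cubic (hq : ∀ k, (q k).totalDegree ≤ 2) : (cubic q).totalDegree ≤ 3 := by
  rw [cubic_eq]
  refine (totalDegree_sub _ _).trans (max_le ?_ ?_)
  · refine totalDegree_finsetSum_le fun k _ => ?_
    refine (totalDegree_mul _ _).trans ?_
    rw [totalDegree_X]
    have := (totalDegree_rename_le (Fin.castAdd (m + 1)) (q k)).trans (hq k)
    omega
  · rw [totalDegree_one]; norm_num

/-- The coordinate rings agree. -/
noncomputable def cubicEquiv : BB q ≃ₐ[F]
    (MvPolynomial (Fin (N + (m + 1))) F ⧸ Ideal.span {cubic q}) :=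
  Ideal.quotientEquivAlg _ _ (renameEquiv F finSumFinEquiv) (by
    rw [Ideal.map_span, Set.image_singleton]
    rfl)

/-- The hypersurfaces agree. -/
noncomputable def cubicIso :
    SpecOver F (MvPolynomial (Fin (N + (m + 1))) F ⧸ Ideal.span {cubic q}) ≅
      SpecOver F (BB q) := specIso (cubicEquiv q)

lemma smoothRel_cubic : SmoothOfRelativeDimension (m + N)
    (SpecOver F (MvPolynomial (Fin (N + (m + 1))) F ⧸ Ideal.span {cubic q})).hom := by
  rw [← Over.w (cubicIso q).hom]
  have h1 := smoothRel_B q
  have h2 : IsIso (cubicIso q).hom.left :=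
    ((Over.forget (SpecF F)).mapIso (cubicIso q)).isIso_hom
  have h3 := smoothOfRelativeDimension_comp 0 (m + N) (cubicIso q).hom.left (SpecOver F (BB q)).hom
  rwa [zero_add] at h3

lemma smoothHyp_cubic : SmoothHyp (cubic q) := by
  have := smoothRel_cubic q
  exact SmoothOfRelativeDimension.smooth (m + N) _

theorem CycleTheory.same_cubic {K : Type} [Field K] (T : CycleTheory F K) (i j : ℤ) :
    T.Same (opn q) i j (hyp (cubic q) (smoothHyp_cubic q)) i j := by
  refine Same.trans (T.same_spl q i j) ?_
  exact CycleData.same_iso (ObjectProperty.isoMk _ (cubicIso q)) i j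

theorem CycleTheory.same_cubic_compl {K : Type} [Field K] (T : CycleTheory F K) (i j : ℤ)
    (hj : 0 ≤ j) :
    T.Same (hyp (cubic q) (smoothHyp_cubic q)) i j (compl (cubic q)) (i + 1) (j + 1) := by
  have h := T.same_hyp_compl (cubic q) (smoothHyp_cubic q) (d := m + N) (smoothRel_cubic q)
    (by omega) (i + 1) (j + 1) (by omega)
  have e1 : i + 1 - 1 = i := by ring
  have e2 : j + 1 - 1 = j := by ring
  rw [e1, e2] at h
  exact Same.symm h

end Transport

end Pool.Agent.Lib.Pb52861c
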