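import Pool.Agent.Lib.Pb52861c.Theory

/-!
# Decomposition of a smooth scheme into pure dimensional pieces
-/

set_option autoImplicit false

open AlgebraicGeometry CategoryTheory Limits MvPolynomial Opposite

namespace Pool.Agent.Lib.Pb52861c

/-- A standard smooth algebra over a nonzero ring has one relative dimension. -/
lemma ringRelDim_unique {R S : Type} [CommRing R] [CommRing S] [Nontrivial S] (f : R →+* S)
    {n m : ℕ} (hn : f.IsStandardSmoothOfRelativeDimension n)
    (hm : f.IsStandardSmoothOfRelativeDimension m) : n = m := by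
  algebraize [f]
  have hn' : Algebra.IsStandardSmoothOfRelativeDimension n R S := hn
  have hm' : Algebra.IsStandardSmoothOfRelativeDimension m R S := hm
  have h1 := Algebra.IsStandardSmoothOfRelativeDimension.rank_kaehlerDifferential (R := R) (S := S) n
  have h2 := Algebra.IsStandardSmoothOfRelativeDimension.rank_kaehlerDifferential (R := R) (S := S) m
  rw [h1] at h2
  exact_mod_cast h2

lemma exists_nontrivial_localization {S : Type} [CommRing S] [Nontrivial S] (s : Set S)
    (hs : Ideal.span s = ⊤) : ∃ t ∈ s, Nontrivial (Localization.Away t) := by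
  by_contra hcon
  push Not at hcon
  have h1 : Ideal.span s ≤ nilradical S := by
    rw [Ideal.span_le]
    intro t ht
    have h2 : Subsingleton (Localization.Away t) := hcon t ht
    have h3 : (0:S) ∈ Submonoid.powers t := IsLocalization.subsingleton_iff.mp h2
    obtain ⟨k, hk⟩ := h3
    exact ⟨k, hk⟩
  rw [hs] at h1
  have h3 : (1:S) ∈ nilradical S := h1 trivial
  obtain ⟨k, hk⟩ := h3
  rw [one_pow] at hk
  exact one_ne_zero hk

/-- The relative dimension is determined if the scheme is nonempty. -/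
lemma relDim_unique {X S : Scheme.{0}} (f : X ⟶ S) {n m : ℕ}
    (hn : SmoothOfRelativeDimension n f) (hm : SmoothOfRelativeDimension m f) (x : X) : n = m := by
  obtain ⟨U, hU, V, hV, hx, e, hf⟩ := hn.exists_isStandardSmoothOfRelativeDimension x
  have hloc : RingHom.Locally (RingHom.IsStandardSmoothOfRelativeDimension m)
      (f.appLE U V e).hom :=
    HasRingHomProperty.appLE (P := @SmoothOfRelativeDimension m)
      (Q := RingHom.Locally (RingHom.IsStandardSmoothOfRelativeDimension m)) f hm ⟨U, hU⟩ ⟨V, hV⟩ e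
  have hne : Nonempty V := ⟨⟨x, hx⟩⟩
  have hnt : Nontrivial Γ(X, V) := inferInstance
  obtain ⟨s, hs, hloc⟩ := hloc
  obtain ⟨t, ht, hnt'⟩ := exists_nontrivial_localization s hs
  have h2 : RingHom.IsStandardSmoothOfRelativeDimension n
      ((algebraMap Γ(X, V) (Localization.Away t)).comp (f.appLE U V e).hom) :=
    (RingHom.isStandardSmoothOfRelativeDimension_stableUnderCompositionWithLocalizationAway
      n).right _ t _ hf
  exact ringRelDim_unique _ h2 (hloc t ht)

/-- The largest open set on which `f` is smooth of relative dimension `n`. -/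
def pureLocus {X S : Scheme.{0}} (f : X ⟶ S) (n : ℕ) : X.Opens :=
  sSup {V : X.Opens | SmoothOfRelativeDimension n (V.ι ≫ f)}

lemma mem_pureLocus {X S : Scheme.{0}} (f : X ⟶ S) (n : ℕ) (x : X) :
    x ∈ pureLocus f n ↔ ∃ V : X.Opens, SmoothOfRelativeDimension n (V.ι ≫ f) ∧ x ∈ V := by
  unfold pureLocus
  rw [TopologicalSpace.Opens.mem_sSup]
  rfl

lemma smooth_pureLocus {X S : Scheme.{0}} (f : X ⟶ S) (n : ℕ) :
    SmoothOfRelativeDimension n ((pureLocus f n).ι ≫ f) := by
  let W := pureLocus f n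
  have hsup : ⨆ V : {V : X.Opens // SmoothOfRelativeDimension n (V.ι ≫ f)}, W.ι ⁻¹ᵁ V.1 = ⊤ := by
    rw [eq_top_iff]
    intro x _
    obtain ⟨V, h1, h2⟩ := (mem_pureLocus f n _).mp x.2
    rw [TopologicalSpace.Opens.mem_iSup]
    exact ⟨⟨V, h1⟩, h2⟩
  rw [IsZariskiLocalAtSource.iff_of_iSup_eq_top (P := @SmoothOfRelativeDimension n) _ hsup]
  rintro ⟨V, hV⟩
  rw [← Category.assoc, ← morphismRestrict_ι, Category.assoc]
  have := smoothOfRelativeDimension_comp 0 n (W.ι ∣_ V) (V.ι ≫ f)
  rwa [zero_add] at this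

lemma pureLocus_disjoint {X S : Scheme.{0}} (f : X ⟶ S) {n m : ℕ} (hnm : n ≠ m) (x : X)
    (h1 : x ∈ pureLocus f n) (h2 : x ∈ pureLocus f m) : False := by
  apply hnm
  let A := pureLocus f n ⊓ pureLocus f m
  have hn : SmoothOfRelativeDimension n (A.ι ≫ f) := by
    have h3 : A.ι = X.homOfLE (inf_le_left : A ≤ pureLocus f n) ≫ (pureLocus f n).ι :=
      (Scheme.homOfLE_ι _ _).symm
    rw [h3, Category.assoc]
    have h4 := smooth_pureLocus f n
    have := smoothOfRelativeDimension_comp 0 n (X.homOfLE (inf_le_left : A ≤ pureLocus f n))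
      ((pureLocus f n).ι ≫ f)
    rwa [zero_add] at this
  have hm : SmoothOfRelativeDimension m (A.ι ≫ f) := by
    have h3 : A.ι = X.homOfLE (inf_le_right : A ≤ pureLocus f m) ≫ (pureLocus f m).ι :=
      (Scheme.homOfLE_ι _ _).symm
    rw [h3, Category.assoc]
    have h4 := smooth_pureLocus f m
    have := smoothOfRelativeDimension_comp 0 m (X.homOfLE (inf_le_right : A ≤ pureLocus f m))
      ((pureLocus f m).ι ≫ f)
    rwa [zero_add] at this
  exact relDim_unique (A.ι ≫ f) hn hm ⟨x, h1, h2⟩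

lemma exists_relDim {R S : Type} [CommRing R] [CommRing S] (f : R →+* S)
    (h : f.IsStandardSmooth) : ∃ n, f.IsStandardSmoothOfRelativeDimension n := by
  algebraize [f]
  have h' : Algebra.IsStandardSmooth R S := h
  obtain ⟨ι, σ, h1, h2, ⟨P⟩⟩ := h'.out
  exact ⟨P.dimension, P.isStandardSmoothOfRelativeDimension rfl⟩

lemma isIso_presheaf_map {X : Scheme.{0}} {A B : X.Opens} (h : A ≤ B) (h' : B ≤ A) :
    IsIso (X.presheaf.map (homOfLE h).op) := by
  have h1 : A = B := le_antisymm h h'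
  subst h1
  have h2 : (homOfLE h).op = 𝟙 (op A) := Subsingleton.elim _ _
  rw [h2, X.presheaf.map_id]
  infer_instance

lemma exists_mem_pureLocus {X S : Scheme.{0}} (f : X ⟶ S) [Smooth f] (x : X) :
    ∃ n, x ∈ pureLocus f n := by
  obtain ⟨U, hU, V, hV, hx, e, hf⟩ := Smooth.exists_isStandardSmooth f x
  obtain ⟨n, hn⟩ := exists_relDim _ hf
  refine ⟨n, (mem_pureLocus f n x).mpr ⟨V, ⟨fun y => ?_⟩, hx⟩⟩
  have hVaff : IsAffine V := hV
  have hle : (⊤ : (V : Scheme.{0}).Opens) ≤ V.ι ⁻¹ᵁ V := fun z _ => z.2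
  refine ⟨U, hU, ⊤, isAffineOpen_top _, trivial, fun z _ => e z.2, ?_⟩
  have h1 : (V.ι ≫ f).appLE U ⊤ (fun z _ => e z.2) = f.appLE U V e ≫ V.ι.appLE V ⊤ hle :=
    (Scheme.Hom.appLE_comp_appLE _ _ _ _ _ _ _).symm
  rw [h1]
  have h2 : IsIso (V.ι.appLE V ⊤ hle) := by
    rw [Scheme.Opens.ι_appLE]
    have hge : V ≤ V.ι ''ᵁ ⊤ := le_of_eq (Scheme.Opens.ι_image_top V).symm
    exact isIso_presheaf_map _ hge
  have h3 := RingHom.IsStandardSmoothOfRelativeDimension.comp
    (RingHom.IsStandardSmoothOfRelativeDimension.equiv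
      (asIso (V.ι.appLE V ⊤ hle)).commRingCatIsoToRingEquiv) hn
  rw [zero_add] at h3
  exact h3

/-- A smooth variety is a finite disjoint union of pure dimensional ones. -/
theorem exists_pure_decomposition {F : Type} [Field F] (X : SmVar F) :
    ∃ (k : ℕ) (U : Fin k → SmVar F) (o : ∀ a, U a ⟶ X),
      (∀ a, IsOpenImmersion (SmVar.mor (o a))) ∧
      (∀ a b, a ≠ b → Disjoint (Set.range (SmVar.mor (o a))) (Set.range (SmVar.mor (o b)))) ∧
      (⋃ a, Set.range (SmVar.mor (o a))) = Set.univ ∧ ∀ a, ∃ d, (U a).Pure d := by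
  obtain ⟨hsm, hsep, hqc⟩ := X.property
  have hcomp : CompactSpace X.sch := (quasiCompact_iff_compactSpace X.str).mp hqc
  -- finitely many dimensions occur
  have hcov : (Set.univ : Set X.sch) ⊆ ⋃ n : ℕ, (pureLocus X.str n : Set X.sch) := by
    intro x _
    obtain ⟨n, hn⟩ := exists_mem_pureLocus X.str x
    exact Set.mem_iUnion.mpr ⟨n, hn⟩
  obtain ⟨t, ht⟩ := isCompact_univ.elim_finite_subcover (fun n : ℕ => (pureLocus X.str n : Set X.sch))
    (fun n => (pureLocus X.str n).isOpen) hcov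
  obtain ⟨k, hk⟩ : ∃ k, ∀ n ∈ t, n < k := ⟨t.sup id + 1, fun n hn =>
    Nat.lt_succ_of_le (Finset.le_sup (f := id) hn)⟩
  have hln : IsLocallyNoetherian X.sch := LocallyOfFiniteType.isLocallyNoetherian X.str
  have hvar : ∀ n, IsSmVar F (Over.mk ((pureLocus X.str n).ι ≫ X.str)) := by
    intro n
    refine ⟨?_, ?_, ?_⟩
    · dsimp; infer_instance
    · dsimp; infer_instance
    · dsimp; infer_instance
  refine ⟨k, fun a => ⟨Over.mk ((pureLocus X.str a).ι ≫ X.str), hvar a⟩,
    fun a => ObjectProperty.homMk (Over.homMk (pureLocus X.str a).ι rfl), ?_, ?_, ?_, ?_⟩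
  · intro a
    change IsOpenImmersion (pureLocus X.str a).ι
    infer_instance
  · intro a b hab
    change Disjoint (Set.range (pureLocus X.str a).ι) (Set.range (pureLocus X.str b).ι)
    rw [Scheme.Opens.range_ι, Scheme.Opens.range_ι, Set.disjoint_left]
    intro x h1 h2
    exact pureLocus_disjoint X.str (fun h => hab (Fin.ext h)) x h1 h2
  · rw [Set.eq_univ_iff_forall]
    intro x
    have h1 := ht (Set.mem_univ x)
    obtain ⟨n, hn, hx⟩ := Set.mem_iUnion₂.mp h1
    rw [Set.mem_iUnion]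
    refine ⟨⟨n, hk n hn⟩, ?_⟩
    have := Scheme.Opens.range_ι (pureLocus X.str n)
    exact this.symm ▸ hx
  · intro a
    exact ⟨a, smooth_pureLocus X.str a⟩

end Pool.Agent.Lib.Pb52861c
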