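import Mathlib

/-!
# Quadratic presentations of algebras of finite type

Every algebra of finite type over a field is a quotient of a polynomial ring, in as many variables
as we like, by an ideal generated by finitely many polynomials of degree at most two.
-/

set_option autoImplicit false

open MvPolynomial

namespace Pool.Agent.Lib.Pb52861c

variable {F : Type} [Field F]

section Aux

variable {n : ℕ} {A : Type} [CommRing A] [Algebra F A]

/-- The index type of the variables: the monomials below `B` and `e` dummy variables. -/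
abbrev QIdx {n : ℕ} (B : Fin n →₀ ℕ) (e : ℕ) : Type := ↥(Finset.Iic B) ⊕ Fin e

/-- The monomial with a given index; the dummy variables go to zero. -/
noncomputable def rho (B : Fin n →₀ ℕ) (e : ℕ) :
    MvPolynomial (QIdx B e) F →ₐ[F] MvPolynomial (Fin n) F :=
  aeval (Sum.elim (fun μ => monomial μ.1 1) (fun _ => 0))

lemma rho_inl (B : Fin n →₀ ℕ) (e : ℕ) (μ : ↥(Finset.Iic B)) :
    rho (F := F) B e (X (Sum.inl μ)) = monomial μ.1 1 := by
  simp [rho]

lemma rho_inr (B : Fin n →₀ ℕ) (e : ℕ) (k : Fin e) :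
    rho (F := F) B e (X (Sum.inr k)) = 0 := by
  simp [rho]

/-- The elements of degree at most two of the kernel. -/
def quadRel {σ : Type} (π : MvPolynomial σ F →ₐ[F] A) : Set (MvPolynomial σ F) :=
  {q | q.totalDegree ≤ 2 ∧ π q = 0}

lemma span_quadRel_le {σ : Type} (π : MvPolynomial σ F →ₐ[F] A) :
    Ideal.span (quadRel π) ≤ RingHom.ker π := by
  rw [Ideal.span_le]
  intro q hq
  exact hq.2

lemma ker_eq_span_quadRel (π0 : MvPolynomial (Fin n) F →ₐ[F] A)
    (gs : Finset (MvPolynomial (Fin n) F)) (hgs : Ideal.span (gs : Set _) = RingHom.ker π0)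
    (B : Fin n →₀ ℕ) (hB1 : ∀ i, Finsupp.single i 1 ≤ B)
    (hB : ∀ g ∈ gs, ∀ μ ∈ g.support, μ ≤ B) (e : ℕ) :
    RingHom.ker (π0.comp (rho B e)) = Ideal.span (quadRel (π0.comp (rho B e))) := by
  apply le_antisymm _ (span_quadRel_le _)
  set π := π0.comp (rho B e) with hπ
  set J := Ideal.span (quadRel π) with hJ
  have hmem : ∀ q : MvPolynomial (QIdx B e) F, q.totalDegree ≤ 2 → π q = 0 →
      Ideal.Quotient.mkₐ F J q = 0 := by
    intro q h1 h2
    rw [Ideal.Quotient.mkₐ_eq_mk, Ideal.Quotient.eq_zero_iff_mem]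
    exact Ideal.subset_span ⟨h1, h2⟩
  let θ : MvPolynomial (Fin n) F →ₐ[F] (MvPolynomial (QIdx B e) F ⧸ J) :=
    aeval (fun i => Ideal.Quotient.mkₐ F J
      (X (Sum.inl ⟨Finsupp.single i 1, Finset.mem_Iic.mpr (hB1 i)⟩)))
  have hθX : ∀ i, θ (X i) = Ideal.Quotient.mkₐ F J
      (X (Sum.inl ⟨Finsupp.single i 1, Finset.mem_Iic.mpr (hB1 i)⟩)) := fun i => by
    simp [θ]
  -- monomials
  have hmon : ∀ k : ℕ, ∀ μ : Fin n →₀ ℕ, ∑ i, μ i = k → ∀ hμ : μ ≤ B, θ (monomial μ 1) =
      Ideal.Quotient.mkₐ F J (X (Sum.inl ⟨μ, Finset.mem_Iic.mpr hμ⟩)) := by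
    intro k
    induction k with
    | zero =>
      intro μ hk hμ
      have h0 : μ = 0 := by
        ext i
        have := (Finset.sum_eq_zero_iff.mp hk) i (Finset.mem_univ i)
        simpa using this
      subst h0
      have h1 : Ideal.Quotient.mkₐ F J
          (X (Sum.inl ⟨(0 : Fin n →₀ ℕ), Finset.mem_Iic.mpr hμ⟩) - 1) = 0 := by
        apply hmem
        · refine (totalDegree_sub _ _).trans ?_
          rw [totalDegree_X, totalDegree_one]
          norm_num
        · rw [map_sub, map_one, hπ, AlgHom.comp_apply, rho_inl]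
          simp
      rw [map_sub, map_one, sub_eq_zero] at h1
      rw [h1]
      have : (monomial (0 : Fin n →₀ ℕ) (1:F)) = 1 := rfl
      rw [this, map_one]
    | succ k ih =>
      intro μ hk hμ
      have hex : ∃ i, μ i ≠ 0 := by
        by_contra hcon
        push Not at hcon
        simp [hcon] at hk
      obtain ⟨i, hi⟩ := hex
      have hle : Finsupp.single i 1 ≤ μ := by
        rw [Finsupp.single_le_iff]
        omega
      obtain ⟨ν, hν⟩ : ∃ ν, μ = ν + Finsupp.single i 1 :=
        ⟨μ - Finsupp.single i 1, (tsub_add_cancel_of_le hle).symm⟩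
      have hνμ : ν ≤ μ := by
        rw [hν]; exact le_self_add
      have hνB : ν ≤ B := hνμ.trans hμ
      have hsum : ∑ i, ν i = k := by
        have h2 : ∑ j, μ j = ∑ j, ν j + 1 := by
          rw [hν]
          simp only [Finsupp.add_apply, Finset.sum_add_distrib]
          congr 1
          rw [Finset.sum_eq_single i]
          · simp
          · intro b _ hb; simp [hb.symm]
          · simp
        omega
      have h3 := ih ν hsum hνB
      have h4 : (monomial μ (1:F)) = monomial ν 1 * X i := by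
        rw [hν, X, monomial_mul, one_mul]
      rw [h4, map_mul, h3, hθX, ← map_mul]
      have h5 : Ideal.Quotient.mkₐ F J
          (X (Sum.inl ⟨ν, Finset.mem_Iic.mpr hνB⟩) *
            X (Sum.inl ⟨Finsupp.single i 1, Finset.mem_Iic.mpr (hB1 i)⟩) -
            X (Sum.inl ⟨μ, Finset.mem_Iic.mpr hμ⟩)) = 0 := by
        apply hmem
        · refine (totalDegree_sub _ _).trans (max_le ?_ ?_)
          · refine (totalDegree_mul _ _).trans ?_
            rw [totalDegree_X, totalDegree_X]
          · rw [totalDegree_X]; norm_num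
        · rw [map_sub, map_mul, hπ, AlgHom.comp_apply, AlgHom.comp_apply, AlgHom.comp_apply,
            rho_inl, rho_inl, rho_inl, ← map_mul, ← map_sub]
          have : (monomial ν (1:F)) * monomial (Finsupp.single i 1) 1 - monomial μ 1 = 0 := by
            rw [monomial_mul, one_mul, ← hν, sub_self]
          rw [this, map_zero]
      rw [map_sub, sub_eq_zero] at h5
      exact h5
  -- the generators of the kernel of `π0`
  have hg : ∀ g ∈ gs, θ g = 0 := by
    intro g hg
    set q : MvPolynomial (QIdx B e) F :=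
      ∑ μ ∈ g.support.attach, C (g.coeff μ.1) *
        X (Sum.inl ⟨μ.1, Finset.mem_Iic.mpr (hB g hg μ.1 μ.2)⟩) with hq
    have h1 : Ideal.Quotient.mkₐ F J q = 0 := by
      apply hmem
      · refine (totalDegree_finsetSum_le (d := 1) ?_).trans (by norm_num)
        intro μ _
        refine (totalDegree_mul _ _).trans ?_
        rw [totalDegree_C, totalDegree_X]
      · rw [hq, map_sum]
        have h2 : ∀ μ ∈ g.support.attach, π (C (g.coeff μ.1) *
            X (Sum.inl ⟨μ.1, Finset.mem_Iic.mpr (hB g hg μ.1 μ.2)⟩)) =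
            π0 (monomial μ.1 (g.coeff μ.1)) := by
          intro μ _
          rw [map_mul, hπ, AlgHom.comp_apply, AlgHom.comp_apply, rho_inl, ← map_mul]
          congr 1
          simp [rho, C_mul_monomial]
        rw [Finset.sum_congr rfl h2, ← map_sum,
          Finset.sum_attach g.support (fun μ => monomial μ (g.coeff μ)), support_sum_monomial_coeff]
        have : g ∈ RingHom.ker π0 := by
          rw [← hgs]; exact Ideal.subset_span hg
        exact this
    rw [hq, map_sum] at h1
    have h3 : θ g = ∑ μ ∈ g.support.attach, θ (monomial μ.1 (g.coeff μ.1)) := by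
      rw [← map_sum, Finset.sum_attach g.support (fun μ => monomial μ (g.coeff μ)),
        support_sum_monomial_coeff]
    rw [h3, ← h1]
    refine Finset.sum_congr rfl fun μ _ => ?_
    have h4 : (monomial μ.1 (g.coeff μ.1)) = C (g.coeff μ.1) * monomial μ.1 1 := by
      rw [C_mul_monomial, mul_one]
    rw [h4, map_mul, map_mul, hmon _ μ.1 rfl (hB g hg μ.1 μ.2)]
    congr 1
    simp [θ]
  have hker : ∀ p ∈ RingHom.ker π0, θ p = 0 := by
    intro p hp
    have : RingHom.ker π0 ≤ RingHom.ker θ := by
      rw [← hgs, Ideal.span_le]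
      exact hg
    exact this hp
  have hcomp : θ.comp (rho B e) = Ideal.Quotient.mkₐ F J := by
    apply MvPolynomial.algHom_ext
    rintro (μ | k)
    · rw [AlgHom.comp_apply, rho_inl]
      exact hmon _ μ.1 rfl (Finset.mem_Iic.mp μ.2)
    · rw [AlgHom.comp_apply, rho_inr, map_zero]
      symm
      apply hmem
      · rw [totalDegree_X]; norm_num
      · rw [hπ, AlgHom.comp_apply, rho_inr, map_zero]
  intro p hp
  have h1 : rho B e p ∈ RingHom.ker π0 := hp
  have h2 := hker _ h1
  have h3 : Ideal.Quotient.mkₐ F J p = 0 := by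
    rw [← hcomp]; exact h2
  rwa [Ideal.Quotient.mkₐ_eq_mk, Ideal.Quotient.eq_zero_iff_mem] at h3

/-- A quadratic presentation, with at least `e` variables. -/
theorem exists_quad_presentation (A : Type) [CommRing A] [Algebra F A] [Algebra.FiniteType F A]
    (e : ℕ) : ∃ (N m : ℕ) (π : MvPolynomial (Fin N) F →ₐ[F] A)
      (q : Fin m → MvPolynomial (Fin N) F), Function.Surjective π ∧
      RingHom.ker π = Ideal.span (Set.range q) ∧ (∀ k, (q k).totalDegree ≤ 2) ∧ e ≤ N := by
  obtain ⟨n, π0, hπ0⟩ := Algebra.FiniteType.iff_quotient_mvPolynomial''.mp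
    (inferInstance : Algebra.FiniteType F A)
  obtain ⟨gs, hgs⟩ : (RingHom.ker π0).FG := IsNoetherian.noetherian _
  let B : Fin n →₀ ℕ := Finsupp.equivFunOnFinite.symm
    (fun i => 1 + ∑ g ∈ gs, ∑ μ ∈ g.support, μ i)
  have hBi : ∀ i, B i = 1 + ∑ g ∈ gs, ∑ μ ∈ g.support, μ i := fun i => by simp [B]
  have hB1 : ∀ i, Finsupp.single i 1 ≤ B := by
    intro i
    rw [Finsupp.single_le_iff, hBi]
    omega
  have hB : ∀ g ∈ gs, ∀ μ ∈ g.support, μ ≤ B := by
    intro g hg μ hμ i
    rw [hBi]
    have h1 : μ i ≤ ∑ μ ∈ g.support, μ i :=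
      Finset.single_le_sum (f := fun μ : Fin n →₀ ℕ => μ i) (fun _ _ => Nat.zero_le _) hμ
    have h2 : ∑ μ ∈ g.support, μ i ≤ ∑ g ∈ gs, ∑ μ ∈ g.support, μ i :=
      Finset.single_le_sum (f := fun g : MvPolynomial (Fin n) F => ∑ μ ∈ g.support, μ i)
        (fun _ _ => Nat.zero_le _) hg
    omega
  have hker := ker_eq_span_quadRel π0 gs hgs B hB1 hB e
  set π := π0.comp (rho B e) with hπ
  have hsurj : Function.Surjective π := by
    intro a
    obtain ⟨p, rfl⟩ := hπ0 a
    refine ⟨aeval (fun i => X (Sum.inl ⟨Finsupp.single i 1, Finset.mem_Iic.mpr (hB1 i)⟩)) p, ?_⟩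
    rw [hπ, AlgHom.comp_apply]
    congr 1
    rw [← AlgHom.comp_apply]
    have : (rho B e).comp (aeval (fun i => X (Sum.inl ⟨Finsupp.single i 1,
        Finset.mem_Iic.mpr (hB1 i)⟩))) = AlgHom.id F (MvPolynomial (Fin n) F) := by
      apply MvPolynomial.algHom_ext
      intro i
      rw [AlgHom.comp_apply, aeval_X, rho_inl]
      rfl
    rw [this]
    rfl
  -- finitely many relations suffice
  have hfg : (Ideal.span (quadRel π)).FG := IsNoetherian.noetherian _
  obtain ⟨T, hT1, hT2⟩ := (Submodule.fg_span_iff_fg_span_finset_subset _).mp hfg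
  -- transport to `Fin N`
  let ε : QIdx B e ≃ Fin (Fintype.card (QIdx B e)) := Fintype.equivFin _
  let E := renameEquiv F ε
  let qT : Fin T.card → MvPolynomial (QIdx B e) F := fun k => (T.equivFin.symm k).1
  have hqT : Set.range qT = (T : Set _) := by
    ext x
    constructor
    · rintro ⟨k, rfl⟩
      exact (T.equivFin.symm k).2
    · intro hx
      exact ⟨T.equivFin ⟨x, hx⟩, by simp [qT]⟩
  refine ⟨Fintype.card (QIdx B e), T.card, π.comp E.symm.toAlgHom, fun k => E (qT k),
    ?_, ?_, ?_, ?_⟩
  · intro a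
    obtain ⟨p, rfl⟩ := hsurj a
    exact ⟨E p, by simp⟩
  · have h1 : RingHom.ker π = Ideal.span (Set.range qT) := by
      rw [hqT, hker]; exact hT2
    ext p
    rw [RingHom.mem_ker]
    have h2 : (π.comp E.symm.toAlgHom) p = 0 ↔ E.symm p ∈ RingHom.ker π := by
      rw [RingHom.mem_ker]; rfl
    rw [h2, h1]
    have h3 : Ideal.span (Set.range fun k => E (qT k)) =
        Ideal.map E (Ideal.span (Set.range qT)) := by
      rw [Ideal.map_span, ← Set.range_comp]
      rfl
    rw [h3]
    constructor
    · intro h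
      have := Ideal.mem_map_of_mem E h
      simpa using this
    · intro h
      rw [Ideal.mem_map_iff_of_surjective _ (by exact E.surjective)] at h
      obtain ⟨y, hy, rfl⟩ := h
      simpa using hy
  · intro k
    have h1 : (qT k).totalDegree ≤ 2 := (hT1 (T.equivFin.symm k).2).1
    exact (totalDegree_rename_le _ _).trans h1
  · rw [Fintype.card_sum, Fintype.card_fin]
    omega

end Aux

end Pool.Agent.Lib.Pb52861c
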