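import Pool.Agent.Lib.Pb52861c.Shift
import Pool.Agent.Lib.Pb52861c.Pure
import Pool.Agent.Lib.Pb52861c.Quad
import Pool.Agent.Lib.Pb52861c.DetRep

/-!
# Hypersurfaces and their complements as smooth varieties
-/

set_option autoImplicit false

open AlgebraicGeometry CategoryTheory Limits MvPolynomial Opposite

namespace Pool.Agent.Lib.Pb52861c

variable {F : Type} [Field F]

/-- Smoothness of the hypersurface `g = 0` in affine space. -/
def SmoothHyp {n : ℕ} (g : MvPolynomial (Fin n) F) : Prop :=
  Smooth (SpecOver F (MvPolynomial (Fin n) F ⧸ Ideal.span {g})).hom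

/-- A smooth hypersurface `g = 0` in affine space. -/
noncomputable def hyp {n : ℕ} (g : MvPolynomial (Fin n) F) (hg : SmoothHyp g) : SmVar F :=
  ⟨SpecOver F (MvPolynomial (Fin n) F ⧸ Ideal.span {g}), isSmVar_of_affine F hg⟩

lemma smooth_compl {n : ℕ} (g : MvPolynomial (Fin n) F) :
    SmoothOfRelativeDimension n (SpecOver F (Localization.Away g)).hom := by
  have h1 : Spec.map (CommRingCat.ofHom (algebraMap F (Localization.Away g))) =
      Spec.map (CommRingCat.ofHom (algebraMap (MvPolynomial (Fin n) F) (Localization.Away g))) ≫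
        Spec.map (CommRingCat.ofHom (algebraMap F (MvPolynomial (Fin n) F))) := by
    rw [← Spec.map_comp, ← CommRingCat.ofHom_comp,
      ← IsScalarTower.algebraMap_eq F (MvPolynomial (Fin n) F) (Localization.Away g)]
  change SmoothOfRelativeDimension n
    (Spec.map (CommRingCat.ofHom (algebraMap F (Localization.Away g))))
  rw [h1]
  have h2 : SmoothOfRelativeDimension n
    (Spec.map (CommRingCat.ofHom (algebraMap F (MvPolynomial (Fin n) F)))) := smooth_affine F n
  have h3 := smoothOfRelativeDimension_comp 0 n
    (Spec.map (CommRingCat.ofHom (algebraMap (MvPolynomial (Fin n) F) (Localization.Away g))))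
    (Spec.map (CommRingCat.ofHom (algebraMap F (MvPolynomial (Fin n) F))))
  rwa [zero_add] at h3

/-- The open set `g ≠ 0` of affine space. -/
noncomputable def compl {n : ℕ} (g : MvPolynomial (Fin n) F) : SmVar F :=
  ⟨SpecOver F (Localization.Away g), isSmVar_of_affine F
    (by have := smooth_compl g; exact SmoothOfRelativeDimension.smooth n _)⟩

/-- A morphism of spectra from a homomorphism of algebras. -/
noncomputable def specMor {A B : Type} [CommRing A] [CommRing B] [Algebra F A] [Algebra F B]
    (f : A →ₐ[F] B) : SpecOver F B ⟶ SpecOver F A :=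
  Over.homMk (Spec.map (CommRingCat.ofHom f.toRingHom)) (by
    change Spec.map _ ≫ Spec.map _ = Spec.map _
    rw [← Spec.map_comp, ← CommRingCat.ofHom_comp]
    congr 2
    exact f.comp_algebraMap)

lemma specMor_left {A B : Type} [CommRing A] [CommRing B] [Algebra F A] [Algebra F B]
    (f : A →ₐ[F] B) : (specMor f).left = Spec.map (CommRingCat.ofHom f.toRingHom) := rfl

/-- Isomorphic algebras have isomorphic spectra. -/
noncomputable def specIso {A B : Type} [CommRing A] [CommRing B] [Algebra F A] [Algebra F B]
    (e : A ≃ₐ[F] B) : SpecOver F B ≅ SpecOver F A where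
  hom := specMor e.toAlgHom
  inv := specMor e.symm.toAlgHom
  hom_inv_id := by
    apply Over.OverMorphism.ext
    change Spec.map _ ≫ Spec.map _ = 𝟙 _
    rw [← Spec.map_comp, ← CommRingCat.ofHom_comp]
    have : (e.toAlgHom.toRingHom).comp (e.symm.toAlgHom.toRingHom) = RingHom.id B := by
      ext x; simp
    rw [this]
    exact Spec.map_id _
  inv_hom_id := by
    apply Over.OverMorphism.ext
    change Spec.map _ ≫ Spec.map _ = 𝟙 _
    rw [← Spec.map_comp, ← CommRingCat.ofHom_comp]
    have : (e.symm.toAlgHom.toRingHom).comp (e.toAlgHom.toRingHom) = RingHom.id A := by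
      ext x; simp
    rw [this]
    exact Spec.map_id _

/-- The closed immersion of a quotient algebra. -/
lemma range_specMor_of_surjective {A B : Type} [CommRing A] [CommRing B] [Algebra F A]
    [Algebra F B] (f : A →ₐ[F] B) (hf : Function.Surjective f) :
    IsClosedImmersion (specMor f).left ∧
      Set.range (specMor f).left = PrimeSpectrum.zeroLocus (RingHom.ker f : Set A) := by
  constructor
  · exact IsClosedImmersion.spec_of_surjective _ hf
  · exact range_comap_of_surjective B f.toRingHom hf

end Pool.Agent.Lib.Pb52861c
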