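import Pool.Agent.Lib.Pb52861c.Theory

/-!
# Isomorphisms between cycle class maps of different varieties
-/

set_option autoImplicit false

open AlgebraicGeometry CategoryTheory Limits MvPolynomial Opposite

namespace Pool.Agent.Lib.Pb52861c

section Data

variable {F K : Type} [Field F] [Field K] (D : CycleData F K)

/-- The invariants of Frobenius in `H i j`. -/
def CycleData.Hinv (X : SmVar F) (i j : ℤ) : Submodule K ((D.H i j).obj (op X)) :=
  LinearMap.eqLocus ((D.frob i j).app (op X)).hom LinearMap.id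

lemma CycleData.mem_Hinv {X : SmVar F} {i j : ℤ} (y : (D.H i j).obj (op X)) :
    y ∈ D.Hinv X i j ↔ (D.frob i j).app (op X) y = y := Iff.rfl

lemma CycleData.c_mem_Hinv (X : SmVar F) (i j : ℤ) (x : (D.M i j).obj (op X)) :
    (D.c i j).app (op X) x ∈ D.Hinv X i j := by
  rw [D.mem_Hinv]
  have h := congrArg (fun t => t.app (op X)) (D.c_frob i j)
  exact ConcreteCategory.congr_hom h x

/-- The cycle class map with values in the invariants. -/
def CycleData.cinv (X : SmVar F) (i j : ℤ) :
    (D.M i j).obj (op X) →ₗ[K] D.Hinv X i j :=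
  LinearMap.codRestrict _ ((D.c i j).app (op X)).hom (D.c_mem_Hinv X i j)

lemma CycleData.cinv_coe (X : SmVar F) (i j : ℤ) (x : (D.M i j).obj (op X)) :
    ((D.cinv X i j x : D.Hinv X i j) : (D.H i j).obj (op X)) = (D.c i j).app (op X) x := rfl

/-- The cycle class map of `X` in the degrees `i j` is isomorphic to that of `X'` in the degrees
`i' j'`. -/
def CycleData.Same (X : SmVar F) (i j : ℤ) (X' : SmVar F) (i' j' : ℤ) : Prop :=
  ∃ (a : (D.M i j).obj (op X) ≃ₗ[K] (D.M i' j').obj (op X'))
    (b : D.Hinv X i j ≃ₗ[K] D.Hinv X' i' j'), ∀ x, b (D.cinv X i j x) = D.cinv X' i' j' (a x)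

variable {D}

lemma Same.symm {X X' : SmVar F} {i j i' j' : ℤ} (h : D.Same X i j X' i' j') :
    D.Same X' i' j' X i j := by
  obtain ⟨a, b, hab⟩ := h
  refine ⟨a.symm, b.symm, fun x => ?_⟩
  rw [LinearEquiv.symm_apply_eq, hab, LinearEquiv.apply_symm_apply]

lemma Same.trans {X X' X'' : SmVar F} {i j i' j' i'' j'' : ℤ} (h : D.Same X i j X' i' j')
    (h' : D.Same X' i' j' X'' i'' j'') : D.Same X i j X'' i'' j'' := by
  obtain ⟨a, b, hab⟩ := h
  obtain ⟨a', b', hab'⟩ := h'
  refine ⟨a.trans a', b.trans b', fun x => ?_⟩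
  rw [LinearEquiv.trans_apply, LinearEquiv.trans_apply, hab, hab']

variable (D)

/-- Injectivity of the cycle class map. -/
def CycleData.Inj (X : SmVar F) (i j : ℤ) : Prop := Function.Injective ((D.c i j).app (op X))

/-- Surjectivity of the cycle class map onto the invariants. -/
def CycleData.Surj (X : SmVar F) (i j : ℤ) : Prop :=
  ∀ y : (D.H i j).obj (op X), (D.frob i j).app (op X) y = y → ∃ x, (D.c i j).app (op X) x = y

lemma CycleData.inj_iff (X : SmVar F) (i j : ℤ) :
    D.Inj X i j ↔ Function.Injective (D.cinv X i j) := by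
  constructor
  · intro h x y hxy
    apply h
    rw [← D.cinv_coe, ← D.cinv_coe, hxy]
  · intro h x y hxy
    apply h
    apply Subtype.ext
    rw [D.cinv_coe, D.cinv_coe, hxy]

lemma CycleData.surj_iff (X : SmVar F) (i j : ℤ) :
    D.Surj X i j ↔ Function.Surjective (D.cinv X i j) := by
  constructor
  · intro h y
    obtain ⟨x, hx⟩ := h y.1 y.2
    exact ⟨x, Subtype.ext hx⟩
  · intro h y hy
    obtain ⟨x, hx⟩ := h ⟨y, hy⟩
    exact ⟨x, by rw [← D.cinv_coe, hx]⟩

variable {D}

lemma Same.inj {X X' : SmVar F} {i j i' j' : ℤ} (h : D.Same X i j X' i' j') :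
    D.Inj X i j ↔ D.Inj X' i' j' := by
  obtain ⟨a, b, hab⟩ := h
  rw [D.inj_iff, D.inj_iff]
  constructor
  · intro h x y hxy
    obtain ⟨x, rfl⟩ := a.surjective x
    obtain ⟨y, rfl⟩ := a.surjective y
    rw [← hab, ← hab] at hxy
    rw [h (b.injective hxy)]
  · intro h x y hxy
    apply a.injective
    apply h
    rw [← hab, ← hab, hxy]

lemma Same.surj {X X' : SmVar F} {i j i' j' : ℤ} (h : D.Same X i j X' i' j') :
    D.Surj X i j ↔ D.Surj X' i' j' := by
  obtain ⟨a, b, hab⟩ := h
  rw [D.surj_iff, D.surj_iff]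
  constructor
  · intro h y
    obtain ⟨x, hx⟩ := h (b.symm y)
    refine ⟨a x, ?_⟩
    rw [← hab, hx, LinearEquiv.apply_symm_apply]
  · intro h y
    obtain ⟨x, hx⟩ := h (b y)
    refine ⟨a.symm x, ?_⟩
    apply b.injective
    rw [hab, LinearEquiv.apply_symm_apply, hx]

/-- Isomorphisms of the two groups compatible with Frobenius and the cycle class map. -/
lemma Same.of_equiv {X X' : SmVar F} {i j i' j' : ℤ}
    (a : (D.M i j).obj (op X) ≃ₗ[K] (D.M i' j').obj (op X'))
    (b : (D.H i j).obj (op X) ≃ₗ[K] (D.H i' j').obj (op X'))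
    (hfrob : ∀ y, (D.frob i' j').app (op X') (b y) = b ((D.frob i j).app (op X) y))
    (hc : ∀ x, (D.c i' j').app (op X') (a x) = b ((D.c i j).app (op X) x)) :
    D.Same X i j X' i' j' := by
  have h1 : ∀ y, y ∈ D.Hinv X i j ↔ b y ∈ D.Hinv X' i' j' := by
    intro y
    rw [D.mem_Hinv, D.mem_Hinv, hfrob]
    exact ⟨fun h => by rw [h], fun h => b.injective h⟩
  let b' : D.Hinv X i j ≃ₗ[K] D.Hinv X' i' j' :=
    { toFun := fun y => ⟨b y.1, (h1 y.1).mp y.2⟩
      map_add' := fun x y => Subtype.ext (map_add b _ _)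
      map_smul' := fun r x => Subtype.ext (map_smul b _ _)
      invFun := fun y => ⟨b.symm y.1, (h1 _).mpr (by rw [LinearEquiv.apply_symm_apply]; exact y.2)⟩
      left_inv := fun y => Subtype.ext (b.symm_apply_apply _)
      right_inv := fun y => Subtype.ext (b.apply_symm_apply _) }
  refine ⟨a, b', fun x => Subtype.ext ?_⟩
  rw [D.cinv_coe, hc]
  rfl

end Data

section Theory

variable {F K : Type} [Field F] [Field K] (T : CycleTheory F K)

/-- Bundles of affine spaces do not change the cycle class map. -/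
theorem CycleTheory.same_bundle {X Y : SmVar F} (f : Y ⟶ X) (r : ℕ)
    (hf : IsAffineBundle r (SmVar.mor f)) (i j : ℤ) : T.Same X i j Y i j := by
  have h1 := T.homotopy_M f r hf i j
  have h2 := T.homotopy_H f r hf i j
  refine Same.of_equiv (asIso ((T.M i j).map f.op)).toLinearEquiv
    (asIso ((T.H i j).map f.op)).toLinearEquiv ?_ ?_
  · intro y
    exact ConcreteCategory.congr_hom ((T.frob i j).naturality f.op) y
  · intro x
    exact ConcreteCategory.congr_hom ((T.c i j).naturality f.op) x

/-- Isomorphisms do not change the cycle class map. -/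
theorem CycleData.same_iso {D : CycleData F K} {X Y : SmVar F} (f : Y ≅ X) (i j : ℤ) :
    D.Same X i j Y i j := by
  refine Same.of_equiv (asIso ((D.M i j).map f.hom.op)).toLinearEquiv
    (asIso ((D.H i j).map f.hom.op)).toLinearEquiv ?_ ?_
  · intro y
    exact ConcreteCategory.congr_hom ((D.frob i j).naturality f.hom.op) y
  · intro x
    exact ConcreteCategory.congr_hom ((D.c i j).naturality f.hom.op) x

/-- The complement of a smooth closed subvariety of affine space has the same cycle class maps as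
the subvariety, up to a shift. -/
theorem CycleTheory.same_complement {n : ℕ} {Z U : SmVar F} (a : Z ⟶ affineSpaceVar F n)
    (o : U ⟶ affineSpaceVar F n) (d : ℕ) (ha : IsClosedImmersion (SmVar.mor a))
    (ho : IsOpenImmersion (SmVar.mor o))
    (hr : Set.range (SmVar.mor o) = (Set.range (SmVar.mor a))ᶜ) (hZ : Z.Pure d) (hd : d < n)
    (i j : ℤ) (hj : 1 ≤ j) :
    T.Same U i j Z (i + 1 - 2 * ((n:ℤ) - d)) (j - ((n:ℤ) - d)) := by
  obtain ⟨G⟩ := T.localization a o d n ha ho hr hZ (smooth_affine F n)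
  set e : ℤ := (n:ℤ) - d with he
  have he1 : 1 ≤ e := by
    have : (d:ℤ) < n := by exact_mod_cast hd
    omega
  -- the motivic part
  have hM1 := T.M_affine n i j hj
  have hM2 := T.M_affine n (i + 1) j hj
  have hMinj : Function.Injective (G.bdM i j) := by
    intro x y hxy
    have h1 : G.bdM i j (x - y) = 0 := by rw [map_sub, hxy, sub_self]
    obtain ⟨z, hz⟩ := (G.exact_M2 i j (x - y)).mp h1
    have h2 : z = 0 := Subsingleton.elim _ _
    rw [h2, map_zero] at hz
    exact sub_eq_zero.mp hz.symm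
  have hMsurj : Function.Surjective (G.bdM i j) := by
    intro z
    exact (G.exact_M3 i j z).mp (Subsingleton.elim _ _)
  let aM : (T.M i j).obj (op U) ≃ₗ[K] (T.M (i + 1 - 2 * e) (j - e)).obj (op Z) :=
    LinearEquiv.ofBijective (G.bdM i j).hom ⟨hMinj, hMsurj⟩
  rcases eq_or_ne i 0 with hi0 | hi0
  · subst hi0
    have hZ0 : Subsingleton ((T.H (0 + 1 - 2 * e) (j - e)).obj (op Z)) :=
      T.H_neg Z _ _ (by omega)
    have hZ1 : Subsingleton ((T.H (0 - 2 * e) (j - e)).obj (op Z)) :=
      T.H_neg Z _ _ (by omega)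
    have hU0 : Subsingleton (T.Hinv U 0 j) := by
      refine ⟨fun y z => ?_⟩
      have key : ∀ w : T.Hinv U 0 j, w = 0 := by
        intro w
        have h1 : G.bdH 0 j w.1 = 0 := Subsingleton.elim _ _
        obtain ⟨x, hx⟩ := (G.exact_H2 0 j w.1).mp h1
        have h2 : (T.H 0 j).map o.op ((T.frob 0 j).app _ x - x) = 0 := by
          rw [map_sub, hx]
          have h3 := ConcreteCategory.congr_hom ((T.frob 0 j).naturality o.op) x
          have h4 : (T.H 0 j).map o.op ((T.frob 0 j).app _ x) =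
              (T.frob 0 j).app _ ((T.H 0 j).map o.op x) := h3.symm
          rw [h4, hx, sub_eq_zero]
          exact w.2
        obtain ⟨z, hz⟩ := (G.exact_H1 0 j _).mp h2
        have h5 : z = 0 := Subsingleton.elim _ _
        rw [h5, map_zero] at hz
        have h6 : x = 0 := T.H_affine_zero n j hj x (sub_eq_zero.mp hz.symm)
        apply Subtype.ext
        rw [← hx, h6, map_zero]
        rfl
      rw [key y, key z]
    have hZ2 : Subsingleton (T.Hinv Z (0 + 1 - 2 * e) (j - e)) :=
      ⟨fun y z => Subtype.ext (Subsingleton.elim _ _)⟩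
    refine ⟨aM, 0, fun x => Subsingleton.elim _ _⟩
  rcases eq_or_ne i (-1) with hi1 | hi1
  · subst hi1
    have hZ0 : Subsingleton ((T.H (-1 + 1 - 2 * e) (j - e)).obj (op Z)) :=
      T.H_neg Z _ _ (by omega)
    have hU0 : Subsingleton ((T.H (-1) j).obj (op U)) := T.H_neg U _ _ (by omega)
    have hZ2 : Subsingleton (T.Hinv Z (-1 + 1 - 2 * e) (j - e)) :=
      ⟨fun y z => Subtype.ext (Subsingleton.elim _ _)⟩
    have hU2 : Subsingleton (T.Hinv U (-1) j) :=
      ⟨fun y z => Subtype.ext (Subsingleton.elim _ _)⟩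
    refine ⟨aM, 0, fun x => Subsingleton.elim _ _⟩
  · have hH1 := T.H_affine n i j hi0
    have hH2 := T.H_affine n (i + 1) j (by omega)
    have hHinj : Function.Injective (G.bdH i j) := by
      intro x y hxy
      have h1 : G.bdH i j (x - y) = 0 := by rw [map_sub, hxy, sub_self]
      obtain ⟨z, hz⟩ := (G.exact_H2 i j (x - y)).mp h1
      have h2 : z = 0 := Subsingleton.elim _ _
      rw [h2, map_zero] at hz
      exact sub_eq_zero.mp hz.symm
    have hHsurj : Function.Surjective (G.bdH i j) := by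
      intro z
      exact (G.exact_H3 i j z).mp (Subsingleton.elim _ _)
    let aH : (T.H i j).obj (op U) ≃ₗ[K] (T.H (i + 1 - 2 * e) (j - e)).obj (op Z) :=
      LinearEquiv.ofBijective (G.bdH i j).hom ⟨hHinj, hHsurj⟩
    refine Same.of_equiv aM aH ?_ ?_
    · intro y
      exact ConcreteCategory.congr_hom (G.bd_frob i j) y
    · intro x
      exact ConcreteCategory.congr_hom (G.bd_c i j) x

end Theory

end Pool.Agent.Lib.Pb52861c
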