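import Pool.Agent.Lib.Pb52861c.Univ

/-!
# Symmetric and alternating matrices of linear forms
-/

set_option autoImplicit false

open AlgebraicGeometry CategoryTheory Limits MvPolynomial Opposite

namespace Pool.Agent.Lib.Pb52861c

section Matrices

variable {R : Type} [CommRing R] {m : ℕ}

/-- The matrix exchanging the two blocks. -/
def swapM (R : Type) [CommRing R] (m : ℕ) : Matrix (Fin m ⊕ Fin m) (Fin m ⊕ Fin m) R :=
  Matrix.fromBlocks 0 1 1 0

lemma isUnit_det_swap : IsUnit (swapM R m).det := by
  have h : swapM R m * swapM R m = 1 := by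
    unfold swapM
    rw [Matrix.fromBlocks_multiply]
    simp
  have h2 := congrArg Matrix.det h
  rw [Matrix.det_mul, Matrix.det_one] at h2
  exact IsUnit.of_mul_eq_one _ h2

/-- The matrix with off-diagonal blocks `A` and `B`. -/
def offDiag (A B : Matrix (Fin m) (Fin m) R) : Matrix (Fin (m + m)) (Fin (m + m)) R :=
  (Matrix.fromBlocks 0 A B 0).submatrix finSumFinEquiv.symm finSumFinEquiv.symm

lemma associated_det_offDiag (A B : Matrix (Fin m) (Fin m) R) :
    Associated (A.det * B.det) (offDiag A B).det := by
  have h1 : (offDiag A B).det = (Matrix.fromBlocks 0 A B 0).det := by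
    unfold offDiag
    rw [Matrix.det_submatrix_equiv_self]
  have h2 : (Matrix.fromBlocks 0 A B 0 : Matrix (Fin m ⊕ Fin m) (Fin m ⊕ Fin m) R) =
      Matrix.fromBlocks A 0 0 B * swapM R m := by
    unfold swapM
    rw [Matrix.fromBlocks_multiply]
    simp
  rw [h1, h2, Matrix.det_mul, Matrix.det_fromBlocks_zero₂₁]
  obtain ⟨u, hu⟩ := isUnit_det_swap (R := R) (m := m)
  exact ⟨u, by rw [hu]⟩

lemma offDiag_transpose (A B : Matrix (Fin m) (Fin m) R) :
    (offDiag A B).transpose = offDiag B.transpose A.transpose := by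
  unfold offDiag
  rw [Matrix.transpose_submatrix, Matrix.fromBlocks_transpose]
  simp

lemma offDiag_diag (A B : Matrix (Fin m) (Fin m) R) (a : Fin (m + m)) :
    offDiag A B a a = 0 := by
  unfold offDiag
  rw [Matrix.submatrix_apply]
  rcases finSumFinEquiv.symm a with a | a <;> simp

lemma offDiag_neg (A B : Matrix (Fin m) (Fin m) R) : -offDiag A B = offDiag (-A) (-B) := by
  unfold offDiag
  ext a b
  rw [Matrix.neg_apply, Matrix.submatrix_apply, Matrix.submatrix_apply]
  rcases finSumFinEquiv.symm a with a | a <;> rcases finSumFinEquiv.symm b with b | b <;> simp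

end Matrices

variable {F : Type} [Field F]

lemma offDiag_degree {n m : ℕ} (A B : Matrix (Fin m) (Fin m) (MvPolynomial (Fin n) F))
    (hA : ∀ a b, (A a b).totalDegree ≤ 1) (hB : ∀ a b, (B a b).totalDegree ≤ 1)
    (a b : Fin (m + m)) : (offDiag A B a b).totalDegree ≤ 1 := by
  unfold offDiag
  rw [Matrix.submatrix_apply]
  rcases finSumFinEquiv.symm a with a | a <;> rcases finSumFinEquiv.symm b with b | b
  · simp
  · exact hA a b
  · exact hB a b
  · simp

/-- Inverting `g` or an associate of `g * g` is the same. -/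
lemma same_compl_sq {K : Type} [Field K] (T : CycleTheory F K) {n : ℕ}
    (g g' : MvPolynomial (Fin n) F) (h : Associated (g * g) g') (i j : ℤ) :
    T.Same (compl g) i j (compl g') i j := by
  have h2 : IsLocalization.Away (g * g) (Localization.Away g) :=
    IsLocalization.Away.mul_of_isUnit g g (IsLocalization.Away.algebraMap_isUnit g)
  have h3 : IsLocalization.Away (g * g) (Localization.Away g') :=
    (IsLocalization.Away.iff_of_associated h).mpr inferInstance
  let e : Localization.Away g' ≃ₐ[MvPolynomial (Fin n) F] Localization.Away g :=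
    IsLocalization.algEquiv (Submonoid.powers (g * g)) _ _
  let e' : Localization.Away g' ≃ₐ[F] Localization.Away g := e.restrictScalars F
  exact Same.symm (CycleData.same_iso (ObjectProperty.isoMk _ (specIso e')) i j)

/-- Passing to symmetric matrices. -/
lemma exists_symm {K : Type} [Field K] (T : CycleTheory F K) {n m : ℕ}
    (A : Matrix (Fin m) (Fin m) (MvPolynomial (Fin n) F)) (hA : ∀ a b, (A a b).totalDegree ≤ 1)
    (i j : ℤ) :
    ∃ S : Matrix (Fin (m + m)) (Fin (m + m)) (MvPolynomial (Fin n) F),
      S.IsSymm ∧ (∀ a b, (S a b).totalDegree ≤ 1) ∧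
      T.Same (compl A.det) i j (compl S.det) i j := by
  refine ⟨offDiag A A.transpose, ?_, offDiag_degree A _ hA (fun a b => hA b a), ?_⟩
  · unfold Matrix.IsSymm
    rw [offDiag_transpose, Matrix.transpose_transpose]
  · apply same_compl_sq
    have := associated_det_offDiag A A.transpose
    rwa [Matrix.det_transpose] at this

/-- Passing to alternating matrices. -/
lemma exists_alt {K : Type} [Field K] (T : CycleTheory F K) {n m : ℕ}
    (A : Matrix (Fin m) (Fin m) (MvPolynomial (Fin n) F)) (hA : ∀ a b, (A a b).totalDegree ≤ 1)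
    (i j : ℤ) :
    ∃ S : Matrix (Fin (m + m)) (Fin (m + m)) (MvPolynomial (Fin n) F),
      (S.transpose = -S ∧ ∀ a, S a a = 0) ∧ (∀ a b, (S a b).totalDegree ≤ 1) ∧
      T.Same (compl A.det) i j (compl S.det) i j := by
  refine ⟨offDiag A (-A.transpose), ⟨?_, offDiag_diag _ _⟩, offDiag_degree A _ hA ?_, ?_⟩
  · rw [offDiag_transpose, offDiag_neg, Matrix.transpose_neg, Matrix.transpose_transpose, neg_neg]
  · intro a b
    rw [Matrix.neg_apply, totalDegree_neg]
    exact hA b a
  · apply same_compl_sq
    have h1 := associated_det_offDiag A (-A.transpose)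
    refine Associated.trans ?_ h1
    rw [Matrix.det_neg, Matrix.det_transpose]
    refine ⟨(-1) ^ Fintype.card (Fin m), ?_⟩
    push_cast
    ring

end Pool.Agent.Lib.Pb52861c
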