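import Pool.Agent.Lib.Pb52861c.Bundle

/-!
# Cycle class maps for smooth varieties: the formal properties that are used

`SmVar F` is the category of smooth separated schemes of finite type over `F`. A `CycleTheory` over
`F` with coefficients in a field `K` consists of contravariant functors
`M i j` (to be thought of as `CH^j(X, 2j - i) ⊗ K`) and `H i j` (`H^i_et(X_F̄, K(j))`), of the
Frobenius endomorphism `frob` of `H i j` and of the cycle class map `c`, with invariant values,
and of the following standard properties: invariance under bundles of affine spaces, the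
localization (Gysin) sequences of smooth pairs, finite additivity, and the known groups of
affine space.
-/

set_option autoImplicit false

open AlgebraicGeometry CategoryTheory Limits MvPolynomial Opposite

namespace Pool.Agent.Lib.Pb52861c

section Var

variable (F : Type) [Field F]

/-- The base scheme. -/
noncomputable abbrev SpecF : Scheme.{0} := Spec (CommRingCat.of F)

/-- Smooth, separated and of finite type over `F` (smooth morphisms are locally of finite
presentation). -/
def IsSmVar : ObjectProperty (Over (SpecF F)) :=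
  fun X => Smooth X.hom ∧ IsSeparated X.hom ∧ QuasiCompact X.hom

/-- The category of smooth varieties over `F`. -/
abbrev SmVar : Type 1 := (IsSmVar F).FullSubcategory

variable {F}

/-- The underlying scheme. -/
noncomputable abbrev SmVar.sch (X : SmVar F) : Scheme.{0} := X.obj.left

/-- The structure morphism. -/
noncomputable abbrev SmVar.str (X : SmVar F) : X.sch ⟶ SpecF F := X.obj.hom

/-- The underlying morphism of schemes. -/
noncomputable abbrev SmVar.mor {X Y : SmVar F} (f : X ⟶ Y) : X.sch ⟶ Y.sch := f.hom.left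

/-- The smooth variety `X` has pure dimension `d`. -/
def SmVar.Pure (X : SmVar F) (d : ℕ) : Prop := SmoothOfRelativeDimension d X.str

end Var

/-- The data of a cycle class map. -/
structure CycleData (F K : Type) [Field F] [Field K] where
  /-- Motivic cohomology: `M i j` is `CH^j(X, 2j - i) ⊗ K`. -/
  M : ℤ → ℤ → (SmVar F)ᵒᵖ ⥤ ModuleCat.{0} K
  /-- Geometric etale cohomology: `H i j` is `H^i_et(X_F̄, K(j))`. -/
  H : ℤ → ℤ → (SmVar F)ᵒᵖ ⥤ ModuleCat.{0} K
  /-- The action of the Frobenius element of the Galois group. -/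
  frob : ∀ i j, H i j ⟶ H i j
  /-- The cycle class map. -/
  c : ∀ i j, M i j ⟶ H i j
  /-- Cycle classes are invariant. -/
  c_frob : ∀ i j, c i j ≫ frob i j = c i j

/-- The localization sequences, in both theories, of an open immersion `o : U ⟶ X` with closed
complement `Z` of pure codimension `e`, and their compatibility with the cycle class maps and
with Frobenius. -/
structure Gysin {F K : Type} [Field F] [Field K] (D : CycleData F K) {Z X U : SmVar F}
    (o : U ⟶ X) (e : ℤ) where
  /-- push-forward -/
  pushM : ∀ i j : ℤ, (D.M (i - 2 * e) (j - e)).obj (op Z) ⟶ (D.M i j).obj (op X)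
  /-- boundary -/
  bdM : ∀ i j : ℤ, (D.M i j).obj (op U) ⟶ (D.M (i + 1 - 2 * e) (j - e)).obj (op Z)
  /-- push-forward -/
  pushH : ∀ i j : ℤ, (D.H (i - 2 * e) (j - e)).obj (op Z) ⟶ (D.H i j).obj (op X)
  /-- boundary -/
  bdH : ∀ i j : ℤ, (D.H i j).obj (op U) ⟶ (D.H (i + 1 - 2 * e) (j - e)).obj (op Z)
  exact_M1 : ∀ i j, Function.Exact (pushM i j) ((D.M i j).map o.op)
  exact_M2 : ∀ i j, Function.Exact ((D.M i j).map o.op) (bdM i j)
  exact_M3 : ∀ i j, Function.Exact (bdM i j) (pushM (i + 1) j)
  exact_H1 : ∀ i j, Function.Exact (pushH i j) ((D.H i j).map o.op)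
  exact_H2 : ∀ i j, Function.Exact ((D.H i j).map o.op) (bdH i j)
  exact_H3 : ∀ i j, Function.Exact (bdH i j) (pushH (i + 1) j)
  push_c : ∀ i j, pushM i j ≫ (D.c i j).app (op X) = (D.c _ _).app (op Z) ≫ pushH i j
  bd_c : ∀ i j, bdM i j ≫ (D.c _ _).app (op Z) = (D.c i j).app (op U) ≫ bdH i j
  push_frob : ∀ i j, pushH i j ≫ (D.frob i j).app (op X) = (D.frob _ _).app (op Z) ≫ pushH i j
  bd_frob : ∀ i j, bdH i j ≫ (D.frob _ _).app (op Z) = (D.frob i j).app (op U) ≫ bdH i j

section Affine

variable (F : Type) [Field F]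

lemma isSmVar_of_affine {X : Over (SpecF F)} [IsAffine X.left] (h : Smooth X.hom) :
    IsSmVar F X := ⟨h, inferInstance, inferInstance⟩

/-- The spectrum of an `F`-algebra as a scheme over `F`. -/
noncomputable def SpecOver (A : Type) [CommRing A] [Algebra F A] : Over (SpecF F) :=
  Over.mk (Spec.map (CommRingCat.ofHom (algebraMap F A)))

instance (A : Type) [CommRing A] [Algebra F A] : IsAffine (SpecOver F A).left := by
  unfold SpecOver; dsimp; infer_instance

lemma smooth_affine (n : ℕ) :
    SmoothOfRelativeDimension n (SpecOver F (MvPolynomial (Fin n) F)).hom := by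
  have h := smooth_Spec_C F (Fin n)
  rw [Nat.card_fin] at h
  exact h

/-- Affine space. -/
noncomputable def affineSpaceVar (n : ℕ) : SmVar F :=
  ⟨SpecOver F (MvPolynomial (Fin n) F), isSmVar_of_affine F
    (by have := smooth_affine F n; exact SmoothOfRelativeDimension.smooth n _)⟩

end Affine

/-- A cycle class map with its standard properties. -/
structure CycleTheory (F K : Type) [Field F] [Field K] extends CycleData F K where
  /-- Homotopy invariance of motivic cohomology for bundles of affine spaces. -/
  homotopy_M : ∀ {X Y : SmVar F} (f : Y ⟶ X) (r : ℕ), IsAffineBundle r (SmVar.mor f) →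
    ∀ i j, IsIso ((M i j).map f.op)
  /-- Homotopy invariance of etale cohomology for bundles of affine spaces. -/
  homotopy_H : ∀ {X Y : SmVar F} (f : Y ⟶ X) (r : ℕ), IsAffineBundle r (SmVar.mor f) →
    ∀ i j, IsIso ((H i j).map f.op)
  /-- Localization for smooth closed subvarieties of pure codimension `n - d`. -/
  localization : ∀ {Z X U : SmVar F} (a : Z ⟶ X) (o : U ⟶ X) (d n : ℕ),
    IsClosedImmersion (SmVar.mor a) → IsOpenImmersion (SmVar.mor o) →
    Set.range (SmVar.mor o) = (Set.range (SmVar.mor a))ᶜ → Z.Pure d → X.Pure n →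
    Nonempty (Gysin toCycleData (Z := Z) o ((n : ℤ) - d))
  /-- Motivic cohomology of a finite disjoint union. -/
  additive_M : ∀ {X : SmVar F} {k : ℕ} (U : Fin k → SmVar F) (o : ∀ a, U a ⟶ X),
    (∀ a, IsOpenImmersion (SmVar.mor (o a))) →
    (∀ a b, a ≠ b → Disjoint (Set.range (SmVar.mor (o a))) (Set.range (SmVar.mor (o b)))) →
    (⋃ a, Set.range (SmVar.mor (o a))) = Set.univ →
    ∀ i j, Function.Bijective (fun (x : (M i j).obj (op X)) (a : Fin k) => (M i j).map (o a).op x)
  /-- Etale cohomology of a finite disjoint union. -/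
  additive_H : ∀ {X : SmVar F} {k : ℕ} (U : Fin k → SmVar F) (o : ∀ a, U a ⟶ X),
    (∀ a, IsOpenImmersion (SmVar.mor (o a))) →
    (∀ a b, a ≠ b → Disjoint (Set.range (SmVar.mor (o a))) (Set.range (SmVar.mor (o b)))) →
    (⋃ a, Set.range (SmVar.mor (o a))) = Set.univ →
    ∀ i j, Function.Bijective (fun (x : (H i j).obj (op X)) (a : Fin k) => (H i j).map (o a).op x)
  /-- Positive weight motivic cohomology of affine space vanishes: the higher K-groups of a finite
  field are torsion (Quillen). -/
  M_affine : ∀ (n : ℕ) (i j : ℤ), 1 ≤ j → Subsingleton ((M i j).obj (op (affineSpaceVar F n)))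
  /-- Affine space over an algebraically closed field is acyclic. -/
  H_affine : ∀ (n : ℕ) (i j : ℤ), i ≠ 0 → Subsingleton ((H i j).obj (op (affineSpaceVar F n)))
  /-- `H^0(𝔸ⁿ, K(j)) = K(j)` has no invariants for `j ≥ 1`. -/
  H_affine_zero : ∀ (n : ℕ) (j : ℤ), 1 ≤ j → ∀ x : (H 0 j).obj (op (affineSpaceVar F n)),
    (frob 0 j).app _ x = x → x = 0
  /-- Etale cohomology vanishes in negative degrees. -/
  H_neg : ∀ (X : SmVar F) (i j : ℤ), i < 0 → Subsingleton ((H i j).obj (op X))

end Pool.Agent.Lib.Pb52861c
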