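import Pool.Agent.Lib.Pb52861c.Main

/-!
# Every cycle class map comes from a cubic hypersurface
-/

set_option autoImplicit false

open AlgebraicGeometry CategoryTheory Limits MvPolynomial Opposite

namespace Pool.Agent.Lib.Pb52861c

variable {F : Type} [Field F]

/-- An affine scheme over `F` is the spectrum of an `F`-algebra. -/
lemma exists_algebra (X : Over (SpecF F)) [IsAffine X.left] :
    ∃ (A : Type) (_ : CommRing A) (_ : Algebra F A), Nonempty (X ≅ SpecOver F A) := by
  let φ : CommRingCat.of F ⟶ Γ(X.left, ⊤) := (Scheme.ΓSpecIso (CommRingCat.of F)).inv ≫ X.hom.appTop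
  let _ : Algebra F Γ(X.left, ⊤) := φ.hom.toAlgebra
  refine ⟨Γ(X.left, ⊤), inferInstance, inferInstance, ⟨Over.isoMk X.left.isoSpec ?_⟩⟩
  change X.left.isoSpec.hom ≫ Spec.map (CommRingCat.ofHom φ.hom) = X.hom
  rw [CommRingCat.ofHom_hom, Spec.map_comp, ← Category.assoc, Scheme.isoSpec_hom_naturality,
    Category.assoc]
  simp

lemma exists_quad_presentation' (A : Type) [CommRing A] [Algebra F A] [Algebra.FiniteType F A]
    (e : ℕ) : ∃ (N m : ℕ) (π : MvPolynomial (Fin N) F →ₐ[F] A)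
      (q : Fin (m + 1) → MvPolynomial (Fin N) F), Function.Surjective π ∧
      RingHom.ker π = Ideal.span (Set.range q) ∧ (∀ k, (q k).totalDegree ≤ 2) ∧ e ≤ N := by
  obtain ⟨N, m, π, q, h1, h2, h3, h4⟩ := exists_quad_presentation (F := F) A e
  refine ⟨N, m, π, Fin.cons 0 q, h1, ?_, ?_, h4⟩
  · rw [h2, Fin.range_cons]
    apply le_antisymm
    · exact Ideal.span_mono (Set.subset_insert _ _)
    · rw [Ideal.span_le]
      rintro x (rfl | hx)
      · exact Ideal.zero_mem _
      · exact Ideal.subset_span hx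
  · intro k
    refine Fin.cases ?_ ?_ k
    · rw [Fin.cons_zero, totalDegree_zero]; norm_num
    · intro k
      rw [Fin.cons_succ]; exact h3 k

lemma range_opnMor {N m : ℕ} (q : Fin (m + 1) → MvPolynomial (Fin N) F) :
    Set.range (SmVar.mor (opnMor q)) =
      {x : PrimeSpectrum (MvPolynomial (Fin N) F) | ∃ k, q k ∉ x.asIdeal} :=
  Scheme.Opens.range_ι (UU q)

lemma compl_zeroLocus_range {R : Type} [CommRing R] {ι : Type} (q : ι → R) :
    {x : PrimeSpectrum R | ∃ k, q k ∉ x.asIdeal} = (PrimeSpectrum.zeroLocus (Set.range q))ᶜ := by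
  ext x
  rw [Set.mem_compl_iff, PrimeSpectrum.mem_zeroLocus, Set.range_subset_iff]
  push Not
  exact Iff.rfl

lemma isOpenImmersion_opnMor {N m : ℕ} (q : Fin (m + 1) → MvPolynomial (Fin N) F) :
    IsOpenImmersion (SmVar.mor (opnMor q)) := by
  change IsOpenImmersion (UU q).ι
  infer_instance

/-- The shape of the universal hypersurfaces: `g = ∑ y_k q_k(x) - 1` with `q_k` of degree at most
two. -/
def IsSplittingCubic {n : ℕ} (g : MvPolynomial (Fin n) F) : Prop :=
  ∃ (N m : ℕ) (h : N + (m + 1) = n) (q : Fin (m + 1) → MvPolynomial (Fin N) F),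
    (∀ k, (q k).totalDegree ≤ 2) ∧
    g = ∑ k, X (Fin.cast h (Fin.natAdd N k)) *
      rename (fun i => Fin.cast h (Fin.castAdd (m + 1) i)) (q k) - 1

theorem universality_affine {K : Type} [Field K] (T : CycleTheory F K) (X : SmVar F)
    (hX : IsAffine X.sch) (d : ℕ) (hd : X.Pure d) (i j r : ℤ) :
    ∃ (n : ℕ) (g : MvPolynomial (Fin n) F) (hg : SmoothHyp g) (i' j' : ℤ),
      IsSplittingCubic g ∧ g.totalDegree ≤ 3 ∧ (∃ d', (hyp g hg).Pure d') ∧
      r ≤ j' ∧ r ≤ i' - j' ∧ 2 * j' - i' = 2 * j - i + 1 ∧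
      T.Same X i j (hyp g hg) i' j' ∧ T.Same X i j (compl g) (i' + 1) (j' + 1) := by
  obtain ⟨A, _, _, ⟨ε⟩⟩ := exists_algebra X.obj
  have hsm : SmoothOfRelativeDimension d (SpecOver F A).hom := by
    have h0 : ε.inv.left ≫ X.obj.hom = (SpecOver F A).hom := Over.w ε.inv
    rw [← h0]
    have h1 : IsIso ε.inv.left := ((Over.forget (SpecF F)).mapIso ε).isIso_inv
    have h2 : SmoothOfRelativeDimension d X.obj.hom := hd
    have h3 := smoothOfRelativeDimension_comp 0 d ε.inv.left X.obj.hom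
    rwa [zero_add] at h3
  have hft : Algebra.FiniteType F A := by
    have h1 : Smooth (Spec.map (CommRingCat.ofHom (algebraMap F A))) :=
      @SmoothOfRelativeDimension.smooth d _ _ _ hsm
    have h2 : LocallyOfFiniteType (Spec.map (CommRingCat.ofHom (algebraMap F A))) := inferInstance
    have h3 := HasRingHomProperty.Spec_iff.mp h2
    rwa [CommRingCat.hom_ofHom, RingHom.finiteType_algebraMap] at h3
  let Z : SmVar F := ⟨SpecOver F A, isSmVar_of_affine F
    (@SmoothOfRelativeDimension.smooth d _ _ _ hsm)⟩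
  have hXZ : T.Same X i j Z i j := CycleData.same_iso (ObjectProperty.isoMk _ ε.symm) i j
  -- a large codimension
  set k : ℕ := 1 + (1 - j).toNat + (r - j).toNat + (r - i + j + 1).toNat with hk
  obtain ⟨N, m, π, q, h1, h2, h3, h4⟩ := exists_quad_presentation' (F := F) A (d + k)
  set c : ℤ := (N:ℤ) - d with hc
  have hck : (k:ℤ) ≤ c := by
    have : ((d + k : ℕ) : ℤ) ≤ N := by exact_mod_cast h4
    push_cast at this
    omega
  have hk1 : (1 - j) + 1 ≤ (k:ℤ) := by omega
  have hk2 : (r - j) + 1 ≤ (k:ℤ) := by omega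
  have hk3 : (r - i + j + 1) + 1 ≤ (k:ℤ) := by omega
  have hk4 : 1 ≤ (k:ℤ) := by omega
  obtain ⟨hcl, hrange⟩ := range_specMor_of_surjective (F := F) π h1
  let a : Z ⟶ affineSpaceVar F N := ObjectProperty.homMk (specMor π)
  have hr : Set.range (SmVar.mor (opnMor q)) = (Set.range (SmVar.mor a))ᶜ := by
    have e1 : Set.range (SmVar.mor a) = PrimeSpectrum.zeroLocus (RingHom.ker π : Set _) := hrange
    rw [e1, range_opnMor, h2, PrimeSpectrum.zeroLocus_span]
    exact compl_zeroLocus_range q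
  have h5 := T.same_complement a (opnMor q) d hcl
    (isOpenImmersion_opnMor q) hr hsm (by omega) (i + 2 * c - 1) (j + c) (by omega)
  have e1 : i + 2 * c - 1 + 1 - 2 * ((N:ℤ) - d) = i := by rw [← hc]; ring
  have e2 : j + c - ((N:ℤ) - d) = j := by rw [← hc]; ring
  rw [e1, e2] at h5
  have h6 : T.Same X i j (hyp (cubic q) (smoothHyp_cubic q)) (i + 2 * c - 1) (j + c) :=
    Same.trans hXZ (Same.trans (Same.symm h5) (T.same_cubic q _ _))
  refine ⟨N + (m + 1), cubic q, smoothHyp_cubic q, i + 2 * c - 1, j + c,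
    ⟨N, m, rfl, q, h3, ?_⟩, totalDegree_cubic q h3, ⟨m + N, smoothRel_cubic q⟩,
    by omega, by omega, by ring, h6,
    Same.trans h6 (T.same_cubic_compl q _ _ (by omega))⟩
  rw [cubic_eq]
  rfl

/-- Iteration: the degree `2 j' - i'` can be made large as well. -/
theorem universality_iter {K : Type} [Field K] (T : CycleTheory F K) (t : ℕ) (X : SmVar F)
    (hX : IsAffine X.sch) (d : ℕ) (hd : X.Pure d) (i j r : ℤ) :
    ∃ (n : ℕ) (g : MvPolynomial (Fin n) F) (hg : SmoothHyp g) (i' j' : ℤ),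
      IsSplittingCubic g ∧ g.totalDegree ≤ 3 ∧ (∃ d', (hyp g hg).Pure d') ∧
      r ≤ j' ∧ r ≤ i' - j' ∧ 2 * j' - i' = 2 * j - i + 1 + t ∧
      T.Same X i j (hyp g hg) i' j' ∧ T.Same X i j (compl g) (i' + 1) (j' + 1) := by
  induction t with
  | zero =>
    obtain ⟨n, g, hg, i', j', h1, h2, h3, h4, h5, h6, h7, h8⟩ :=
      universality_affine T X hX d hd i j r
    exact ⟨n, g, hg, i', j', h1, h2, h3, h4, h5, by push_cast; omega, h7, h8⟩
  | succ t ih =>
    obtain ⟨n, g, hg, i', j', h1, h2, ⟨d', h3⟩, h4, h5, h6, h7, h8⟩ := ih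
    have haff : IsAffine (hyp g hg).sch := by
      change IsAffine (SpecOver F (MvPolynomial (Fin n) F ⧸ Ideal.span {g})).left
      infer_instance
    obtain ⟨n', g', hg', i'', j'', k1, k2, k3, k4, k5, k6, k7, k8⟩ :=
      universality_affine T (hyp g hg) haff d' h3 i' j' r
    exact ⟨n', g', hg', i'', j'', k1, k2, k3, k4, k5, by push_cast at h6 ⊢; omega,
      Same.trans h7 k7, Same.trans h7 k8⟩

/-- The final form, with all three degrees large. -/
theorem universality {K : Type} [Field K] (T : CycleTheory F K) (X : SmVar F)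
    (hX : IsAffine X.sch) (d : ℕ) (hd : X.Pure d) (i j r : ℤ) :
    ∃ (n : ℕ) (g : MvPolynomial (Fin n) F) (hg : SmoothHyp g) (i' j' : ℤ),
      IsSplittingCubic g ∧ g.totalDegree ≤ 3 ∧ r ≤ j' ∧ r ≤ i' - j' ∧ r ≤ 2 * j' - i' ∧
      T.Same X i j (hyp g hg) i' j' ∧ T.Same X i j (compl g) (i' + 1) (j' + 1) := by
  obtain ⟨n, g, hg, i', j', h1, h2, _, h4, h5, h6, h7, h8⟩ :=
    universality_iter T (r - (2 * j - i + 1)).toNat X hX d hd i j r
  exact ⟨n, g, hg, i', j', h1, h2, h4, h5, by omega, h7, h8⟩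

end Pool.Agent.Lib.Pb52861c
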