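import Pool.Agent.Lib.Pb52861c.Shift

/-!
# Cycle class maps over a finite field: the record used in the statement

A `Val K` is the value at one smooth variety `X` of the two theories, `M i j = CH^j(X, 2j - i) ⊗ K`
and `H i j = H^i(X_F̄, K(j))`, with the Frobenius endomorphism of the second and the cycle class
map. A `CycleFunctor F K` is a contravariant functor from smooth varieties to such values, and
`CycleModel F K` is such a functor with the standard (published) properties.
-/

set_option autoImplicit false

open AlgebraicGeometry CategoryTheory Limits MvPolynomial Opposite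

namespace Pool.Agent.Lib.Pb52861c

/-- The value at one variety: motivic cohomology `M`, geometric etale cohomology `H`, Frobenius on
`H` and the cycle class map `c`, with invariant values. -/
structure Val (K : Type) [Field K] where
  /-- `CH^j(X, 2j - i) ⊗ K` -/
  M : ℤ → ℤ → ModuleCat.{0} K
  /-- `H^i(X_F̄, K(j))` -/
  H : ℤ → ℤ → ModuleCat.{0} K
  /-- Frobenius -/
  frob : ∀ i j, H i j ⟶ H i j
  /-- the cycle class map -/
  c : ∀ i j, M i j ⟶ H i j
  c_frob : ∀ i j, c i j ≫ frob i j = c i j

section Values

variable {K : Type} [Field K]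

/-- Maps of both theories, compatible with the cycle class maps and with Frobenius. -/
@[ext]
structure Val.Hom (V W : Val K) where
  /-- on `M` -/
  m : ∀ i j, V.M i j ⟶ W.M i j
  /-- on `H` -/
  h : ∀ i j, V.H i j ⟶ W.H i j
  m_c : ∀ i j, m i j ≫ W.c i j = V.c i j ≫ h i j
  h_frob : ∀ i j, h i j ≫ W.frob i j = V.frob i j ≫ h i j

/-- identity -/
def Val.Hom.id (V : Val K) : Val.Hom V V :=
  ⟨fun _ _ => 𝟙 _, fun _ _ => 𝟙 _, by simp, by simp⟩

/-- composition -/
def Val.Hom.comp {U V W : Val K} (f : Val.Hom U V) (g : Val.Hom V W) : Val.Hom U W :=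
  ⟨fun i j => f.m i j ≫ g.m i j, fun i j => f.h i j ≫ g.h i j,
    fun i j => by rw [Category.assoc, g.m_c, ← Category.assoc, f.m_c, Category.assoc],
    fun i j => by rw [Category.assoc, g.h_frob, ← Category.assoc, f.h_frob, Category.assoc]⟩

instance : Category.{0} (Val K) where
  Hom := Val.Hom
  id := Val.Hom.id
  comp := Val.Hom.comp
  id_comp _ := Val.Hom.ext (by funext i j; exact Category.id_comp _)
    (by funext i j; exact Category.id_comp _)
  comp_id _ := Val.Hom.ext (by funext i j; exact Category.comp_id _)
    (by funext i j; exact Category.comp_id _)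
  assoc _ _ _ := Val.Hom.ext (by funext i j; exact Category.assoc _ _ _)
    (by funext i j; exact Category.assoc _ _ _)

/-- The shift `M i j ↦ M (i - 2 e) (j - e)`, source of the push-forward along a closed embedding
of codimension `e`. -/
def Val.shift (V : Val K) (e : ℤ) : Val K :=
  ⟨fun i j => V.M (i - 2 * e) (j - e), fun i j => V.H (i - 2 * e) (j - e),
    fun _ _ => V.frob _ _, fun _ _ => V.c _ _, fun _ _ => V.c_frob _ _⟩

/-- The shift `M i j ↦ M (i + 1) j`, target of boundary maps. -/
def Val.next (V : Val K) : Val K :=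
  ⟨fun i j => V.M (i + 1) j, fun i j => V.H (i + 1) j,
    fun _ _ => V.frob _ _, fun _ _ => V.c _ _, fun _ _ => V.c_frob _ _⟩

/-- The shift of a map. -/
def Val.Hom.next {V W : Val K} (f : Val.Hom V W) : Val.Hom V.next W.next :=
  ⟨fun i j => f.m (i + 1) j, fun i j => f.h (i + 1) j, fun _ _ => f.m_c _ _,
    fun _ _ => f.h_frob _ _⟩

/-- Exactness in both theories and all degrees. -/
def Val.Exact {U V W : Val K} (f : Val.Hom U V) (g : Val.Hom V W) : Prop :=
  (∀ i j, Function.Exact (f.m i j) (g.m i j)) ∧ ∀ i j, Function.Exact (f.h i j) (g.h i j)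

/-- A localization sequence: `X` the value at a variety, `Z` at a smooth closed subvariety of
codimension `e`, `U` at the complement and `res` the restriction. -/
structure Val.Localization (Z : Val K) {X U : Val K} (res : Val.Hom X U) (e : ℤ) where
  /-- push-forward -/
  push : Val.Hom (Z.shift e) X
  /-- boundary -/
  bd : Val.Hom U (Z.shift e).next
  exact₁ : Val.Exact push res
  exact₂ : Val.Exact res bd
  exact₃ : Val.Exact bd push.next

/-- The maps `p` make `V` the product of the `W a`. -/
def Val.IsProduct {V : Val K} {k : ℕ} {W : Fin k → Val K} (p : ∀ a, Val.Hom V (W a)) : Prop :=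
  (∀ i j, Function.Bijective fun (x : V.M i j) (a : Fin k) => (p a).m i j x) ∧
    ∀ i j, Function.Bijective fun (x : V.H i j) (a : Fin k) => (p a).h i j x

/-- The known vanishing for an affine space over a finite field: `M i j = 0` for `j ≥ 1`,
`H i j = 0` for `i ≠ 0`, and `H 0 j` has no nonzero invariants for `j ≥ 1`. -/
structure Val.IsPoint (V : Val K) : Prop where
  M_zero : ∀ i j : ℤ, 1 ≤ j → Subsingleton (V.M i j)
  H_zero : ∀ i j : ℤ, i ≠ 0 → Subsingleton (V.H i j)
  inv_zero : ∀ j : ℤ, 1 ≤ j → ∀ x : V.H 0 j, V.frob 0 j x = x → x = 0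

/-- The invariants of Frobenius. -/
def Val.inv (V : Val K) (i j : ℤ) : Submodule K (V.H i j) :=
  LinearMap.eqLocus (V.frob i j).hom LinearMap.id

lemma Val.c_mem (V : Val K) (i j : ℤ) (x : V.M i j) : (V.c i j).hom x ∈ V.inv i j :=
  ConcreteCategory.congr_hom (V.c_frob i j) x

/-- The cycle class map with values in the invariants. -/
def Val.cinv (V : Val K) (i j : ℤ) : V.M i j →ₗ[K] V.inv i j :=
  LinearMap.codRestrict _ (V.c i j).hom (V.c_mem i j)

/-- The invariants of Frobenius, as an object. -/
def Val.invMod (V : Val K) (i j : ℤ) : ModuleCat.{0} K := ModuleCat.of K (V.inv i j)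

/-- The cycle class map with values in the invariants, as a morphism. -/
def Val.cinvHom (V : Val K) (i j : ℤ) : V.M i j ⟶ V.invMod i j := ModuleCat.ofHom (V.cinv i j)

/-- The cycle class maps of `V` in degrees `i j` and of `W` in degrees `i' j'`, with values in the
invariants, are isomorphic. -/
def Val.Same (V : Val K) (i j : ℤ) (W : Val K) (i' j' : ℤ) : Prop :=
  ∃ (a : V.M i j ≅ W.M i' j') (b : V.invMod i j ≅ W.invMod i' j'),
    V.cinvHom i j ≫ b.hom = a.hom ≫ W.cinvHom i' j'

/-- The cycle class map is injective. -/
def Val.Inj (V : Val K) (i j : ℤ) : Prop := Function.Injective (V.c i j)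

/-- The cycle class map is surjective onto the invariants. -/
def Val.Surj (V : Val K) (i j : ℤ) : Prop := ∀ y, V.frob i j y = y → ∃ x, V.c i j x = y

end Values

section Geometry

variable {F : Type} [Field F]

/-- The set of points. -/
def SmVar.Pt (X : SmVar F) : Type := X.sch

/-- The image of a morphism. -/
def SmVar.img {X Y : SmVar F} (f : X ⟶ Y) : Set Y.Pt := Set.range (SmVar.mor f)

/-- `f` is a bundle of affine spaces. -/
def IsBundle {X Y : SmVar F} (f : Y ⟶ X) : Prop := ∃ r, IsAffineBundle r (SmVar.mor f)

/-- `a` is a closed immersion, `o` the open immersion of the complement, and `Z`, `X` are pure of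
dimensions `d`, `n`. -/
structure IsPair {Z X U : SmVar F} (a : Z ⟶ X) (o : U ⟶ X) (d n : ℕ) : Prop where
  closed : IsClosedImmersion (SmVar.mor a)
  isOpen : IsOpenImmersion (SmVar.mor o)
  compl : SmVar.img o = (SmVar.img a)ᶜ
  pure_Z : Z.Pure d
  pure_X : X.Pure n

/-- The open immersions `o` decompose `X` as a finite disjoint union. -/
structure IsDecomposition {X : SmVar F} {k : ℕ} {U : Fin k → SmVar F} (o : ∀ a, U a ⟶ X) :
    Prop where
  isOpen : ∀ a, IsOpenImmersion (SmVar.mor (o a))
  disjoint : ∀ a b, a ≠ b → Disjoint (SmVar.img (o a)) (SmVar.img (o b))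
  union : (⋃ a, SmVar.img (o a)) = Set.univ

end Geometry

section Models

variable (F K : Type) [Field F] [Field K]

/-- Contravariant functors from smooth varieties to values. -/
structure CycleFunctor where
  /-- the functor -/
  toFunctor : (SmVar F)ᵒᵖ ⥤ Val K

variable {F K}

/-- The value at a smooth variety. -/
noncomputable def CycleFunctor.val (T : CycleFunctor F K) (X : SmVar F) : Val K := T.toFunctor.obj (op X)

/-- The pull-back map. -/
noncomputable def CycleFunctor.res (T : CycleFunctor F K) {X Y : SmVar F} (f : Y ⟶ X) :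
    Val.Hom (T.val X) (T.val Y) := T.toFunctor.map f.op

variable (F K)

/-- Motivic cohomology and geometric etale cohomology of smooth varieties over a finite field, with
the cycle class map, Frobenius and their standard properties. -/
structure CycleModel where
  /-- the two theories -/
  T : CycleFunctor F K
  /-- homotopy invariance for bundles of affine spaces -/
  homotopy : ∀ {X Y : SmVar F} (f : Y ⟶ X), IsBundle f →
    ∃ g : Val.Hom (T.val Y) (T.val X), (T.res f).comp g = Val.Hom.id _ ∧
      g.comp (T.res f) = Val.Hom.id _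
  /-- localization -/
  localization : ∀ {Z X U : SmVar F} (a : Z ⟶ X) (o : U ⟶ X) (d n : ℕ), IsPair a o d n →
    Nonempty (Val.Localization (T.val Z) (T.res o) ((n : ℤ) - d))
  /-- finite disjoint unions -/
  additive : ∀ {X : SmVar F} {k : ℕ} {U : Fin k → SmVar F} (o : ∀ a, U a ⟶ X),
    IsDecomposition o → Val.IsProduct fun a => T.res (o a)
  /-- affine spaces: the higher K-groups of a finite field are torsion (Quillen), and affine space
  is acyclic -/
  affine : ∀ n : ℕ, (T.val (affineSpaceVar F n)).IsPoint
  /-- etale cohomology vanishes in negative degrees -/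
  neg : ∀ (X : SmVar F) (i j : ℤ), i < 0 → Subsingleton ((T.val X).H i j)

end Models

end Pool.Agent.Lib.Pb52861c
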